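import Pool.Agent.Lib.MP_1a91b9_ntX.Base
import Pool.Agent.Lib.MP_1a91b9_ntT.TW.Loc

/-!
# Finiteness of the points from finiteness over a larger field
-/

set_option autoImplicit false

namespace Pool.Agent.Lib.MP_1a91b9_ntX.TG

open WeierstrassCurve Pool.Agent.Lib.MP_1a91b9_nt Pool.Agent.Lib.MP_1a91b9_ntT
  Pool.Agent.Lib.MP_1a91b9_ntT.TW

open scoped Classical in
/-- Finiteness of the points from finiteness over a larger field. -/
theorem finite_down {N M : Type*} [Field N] [Field M] [Algebra N M] (W : WeierstrassCurve N)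
    (V : WeierstrassCurve M) (C : WeierstrassCurve.VariableChange M)
    (hC : C • (W.baseChange M) = V) (h : Finite V.toAffine.Point) :
    Finite W.toAffine.Point := by
  rw [← hC] at h
  have h3 : Finite (W.map (algebraMap N M)).toAffine.Point :=
    Finite.of_surjective _ (vcFun_bijective (W.baseChange M) C).2
  exact Finite.of_injective _ (locMap_injective (algebraMap N M) W)

theorem E_map [DD] {N M : Type*} [Field N] [Field M] (f : N →+* M) :
    (MP_1a91b9_ntX.E N).map f = MP_1a91b9_ntX.E M := by
  ext <;> simp [MP_1a91b9_ntX.E, dD]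

end Pool.Agent.Lib.MP_1a91b9_ntX.TG
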