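import Pool.Agent.Lib.MP_1a91b9_ntX.TG.Analytic
import Pool.Agent.Lib.MP_1a91b9_ntX.PL.Odd
import Pool.Agent.Lib.MP_1a91b9_ntX.DY.Top
import Pool.Agent.Lib.MP_1a91b9_ntX.DY.Main
import Pool.Agent.Lib.MP_1a91b9_ntT3.S9.Defs

/-!
# Towers over a general base field for `y² = x³ + D`: the algebraic side
-/

set_option autoImplicit false

namespace Pool.Agent.Lib.MP_1a91b9_ntX.TG

open NumberField IsDedekindDomain WeierstrassCurve Module Pool.Agent.Lib.MP_1a91b9_ntT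
open Pool.Agent.Lib.MP_1a91b9_ntX.DB Pool.Agent.Lib.MP_1a91b9_ntX.DX
  Pool.Agent.Lib.MP_1a91b9_ntX.DS
open scoped Classical
open Pool.Agent.Lib.MP_1a91b9_ntT3.S9 (ShaP)

universe u

/-- What is needed about the field `F` over `K` for the `ℓ`-part of the formula. -/
structure GoodX [DD] [HC] (ℓ : ℕ) [Fact ℓ.Prime] (F : Type u) [Field F] [NumberField F]
    [Algebra K F] : Prop where
  good : ¬ (ℓ : ℤ) ∣ 6 * DD.D
  unr : UnrL ℓ F
  unit : AN.UnitProp ℓ Om F
  nice : LF.Nice F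
  fin : Finite (E F).toAffine.Point
  cop : (Nat.card (E F).toAffine.Point).Coprime ℓ
  sha : Subsingleton (ShaP ℓ (E F))

section
variable [DD] [HC]
  {P : ∀ (F : Type u) [Field F] [NumberField F] [Algebra K F], Prop}
  {ℓ : ℕ} (hD : ¬ (ℓ : ℤ) ∣ 6 * DD.D)
  (hP : ∀ (F : Type u) [Field F] [NumberField F] [Algebra K F], P F → BaseG ℓ F)
  (F : Type u) [Field F] [NumberField F] [Algebra K F]
include hD hP

omit hD in
/-- the Selmer group in Kummer form is trivial over the fields of the tower -/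
theorem alg_tower {ϖ : 𝓞 K} {q : ℕ} (h : PD ϖ ℓ q) (hF : TowerG P ℓ F) :
    VT ϖ ℓ F ∧ DT ϖ F ∧ UnrL ℓ F :=
  DS.tower_alg h (fun F _ _ _ hb => (hP F hb).vt ϖ q h) (fun F _ _ _ hb => (hP F hb).dt ϖ q h)
    (fun F _ _ _ hb => (hP F hb).unr) F hF

/-- the group of points is finite over the fields of the tower -/
theorem finite_tower (hℓ : ℓ.Prime) (h : TowerG P ℓ F) : Finite (E F).toAffine.Point := by
  obtain ⟨ϖ, q, hp⟩ := DX.exists_pd hℓ hD
  obtain ⟨h1, h2, h3⟩ := alg_tower hP F hp h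
  have hfin : Finite (Pt F) := DY.top' hp h1 h3 h2
  exact (PL.pt_card F hfin).1

/-- the fields of the tower satisfy the hypotheses of the `ℓ`-part of the formula -/
theorem goodX_tower [hℓ : Fact ℓ.Prime] (h : TowerG P ℓ F) : GoodX ℓ F := by
  obtain ⟨ϖ, q, hp⟩ := DX.exists_pd hℓ.out hD
  have hp' := pd_cj hp
  obtain ⟨h1, h2, h3⟩ := alg_tower hP F hp h
  obtain ⟨h1', h2', -⟩ := alg_tower hP F hp' h
  have hfin : Finite (Pt F) := DY.top' hp h1 h3 h2
  have hd1 := DY.exists_divisor' hp h1 h3 h2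
  have hd2 := DY.exists_divisor' hp' h1' h3 h2'
  rw [cj_cj] at hd2
  have hcop := PL.coprime_card hp hfin hd1 hd2
  obtain ⟨hf, hc⟩ := PL.pt_card F hfin
  refine ⟨hD, h3, unitProp_tower hℓ.out hD hP h, nice_tower hℓ.out hD hP h, hf, ?_, ?_⟩
  · rw [hc]
    exact hcop
  · exact DY.sha_primary' hp h3 h1 h1' h2 h2'

end

end Pool.Agent.Lib.MP_1a91b9_ntX.TG
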