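import Pool.Agent.Lib.MP_1a91b9_ntX.DX.Defs
import Pool.Agent.Lib.MP_1a91b9_ntX.DB.VT

/-!
# `VT` and `DT` are invariant under isomorphisms of the base field
-/

set_option autoImplicit false

namespace Pool.Agent.Lib.MP_1a91b9_ntX.TG

open NumberField IsDedekindDomain WeierstrassCurve Module Pool.Agent.Lib.MP_1a91b9_ntT
open Pool.Agent.Lib.MP_1a91b9_ntX.DB Pool.Agent.Lib.MP_1a91b9_ntX.DX

universe u

section
variable {F₀ F N : Type u} [Field F₀] [NumberField F₀] [Field F]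
  [NumberField F] [Field N] [NumberField N]
  [Algebra F₀ F] [Algebra F₀ N] [Algebra F N] [IsScalarTower F₀ F N]
  (hb : Function.Bijective (algebraMap F₀ F))
include hb

theorem iso_galois [IsGalois F N] : IsGalois F₀ N := by
  refine IsGalois.of_equiv_equiv (F := F) (E := N) (M := F₀) (N := N)
    (f := (RingEquiv.ofBijective (algebraMap F₀ F) hb).symm) (g := RingEquiv.refl N) ?_
  ext x
  obtain ⟨y, rfl⟩ := hb.2 x
  change algebraMap F₀ N ((RingEquiv.ofBijective (algebraMap F₀ F) hb).symm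
    (RingEquiv.ofBijective (algebraMap F₀ F) hb y)) = algebraMap F N (algebraMap F₀ F y)
  rw [RingEquiv.symm_apply_apply]
  exact IsScalarTower.algebraMap_apply F₀ F N y

theorem iso_surj (τ : Gal(N/F₀)) : ∃ σ : Gal(N/F), toF F₀ σ = τ := by
  refine ⟨AlgEquiv.ofRingEquiv (f := τ.toRingEquiv) fun x => ?_, ?_⟩
  · obtain ⟨y, rfl⟩ := hb.2 x
    rw [← IsScalarTower.algebraMap_apply F₀ F N]
    exact τ.commutes y
  · ext x
    rfl

end

variable [DD]

section
variable {F₀ F : Type u} [Field F₀] [NumberField F₀] [Algebra K F₀] [Field F]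
  [NumberField F] [Algebra K F] (e : F₀ ≃ₐ[K] F)
include e

/-- the field `N` over `F₀` -/
theorem full_iso {ϖ : 𝓞 K} (N : Type u) [Field N] [NumberField N] [Algebra K N] [Algebra F N]
    [IsScalarTower K F N] [DecidableEq N] [IsGalois F N] (P : Pt N) (hP : Full F ϖ P) :
    ∃ (_ : Algebra F₀ F) (_ : Algebra F₀ N) (_ : IsScalarTower K F₀ N) (_ : IsGalois F₀ N)
      (_ : IsScalarTower F₀ F N),
      Function.Bijective (algebraMap F₀ F) ∧ Full F₀ ϖ P := by
  let a1 : Algebra F₀ F := (e : F₀ →+* F).toAlgebra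
  let a2 : Algebra F₀ N := ((algebraMap F N).comp (algebraMap F₀ F)).toAlgebra
  have hb : Function.Bijective (algebraMap F₀ F) := e.bijective
  have t1 : IsScalarTower F₀ F N := IsScalarTower.of_algebraMap_eq fun x => rfl
  have t2 : IsScalarTower K F₀ N := IsScalarTower.of_algebraMap_eq fun x => by
    change algebraMap K N x = algebraMap F N (e (algebraMap K F₀ x))
    rw [e.commutes, ← IsScalarTower.algebraMap_apply]
  have hG : IsGalois F₀ N := iso_galois (F := F) hb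
  refine ⟨a1, a2, t2, hG, t1, hb, hP.ord, fun τ hτ => ?_, fun c hc => ?_⟩
  · obtain ⟨σ, rfl⟩ := iso_surj (N := N) hb τ
    have h1 := hP.gen σ hτ
    rw [h1]
    rfl
  · obtain ⟨σ, hσ⟩ := hP.all c hc
    exact ⟨toF F₀ σ, hσ⟩

theorem vt_iso {ϖ : 𝓞 K} {ℓ : ℕ} (h : VT ϖ ℓ F₀) : VT ϖ ℓ F := by
  intro N _ _ _ _ _ _ _ P hP y hy
  obtain ⟨a1, a2, t2, hG, t1, hb, hF⟩ := full_iso e N P hP
  refine h N P hF y ⟨hy.od, ?_, hy.loc⟩
  obtain ⟨A, hA⟩ := hy.iso
  refine ⟨A, fun τ c hτ => ?_⟩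
  obtain ⟨σ, rfl⟩ := iso_surj (N := N) hb τ
  exact hA σ c hτ

theorem dt_iso {ϖ : 𝓞 K} (h : DT ϖ F₀) : DT ϖ F := by
  intro N _ _ _ _ _ _ _ P hP v hv
  obtain ⟨a1, a2, t2, hG, t1, hb, hF⟩ := full_iso e N P hP
  obtain ⟨τ, h1, h2⟩ := h N P hF v hv
  obtain ⟨σ, rfl⟩ := iso_surj (N := N) hb τ
  refine ⟨σ, ?_, h2⟩
  rintro rfl
  exact h1 rfl

end

end Pool.Agent.Lib.MP_1a91b9_ntX.TG
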