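import Pool.Agent.Lib.MP_1a91b9_ntX.TG.Exc
import Pool.Agent.Lib.MP_1a91b9_ntX.TG.Iso
import Pool.Agent.Lib.MP_1a91b9_ntX.TG.Dat
import Pool.Agent.Lib.MP_1a91b9_ntX.TG.Std
import Mathlib.Data.Nat.Prime.Factorial

/-!
# The theorem over a general base field for `y² = x³ + D`
-/

set_option autoImplicit false

namespace Pool.Agent.Lib.MP_1a91b9_ntX.TG

open NumberField IsDedekindDomain Module WeierstrassCurve Pool.Agent.Lib.MP_1a91b9_ntT
open Pool.Agent.Lib.MP_1a91b9_nt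
open Pool.Agent.Lib.MP_1a91b9_ntX.DB

variable [DD] [HC]

/-- What is needed about the prime `ℓ` and the base field. -/
structure GoodEll (μ c : 𝓞 K) (ℓ : ℕ) (F₀ : Type) [Field F₀] [NumberField F₀] [Algebra K F₀] :
    Prop where
  prime : ℓ.Prime
  good : ¬ (ℓ : ℤ) ∣ 6 * DD.D
  mu : ¬ ℓ ∣ nAb μ
  nag : NaG ℓ μ F₀
  nac : ∀ v : HeightOneSpectrum (𝓞 F₀), MP_1a91b9_ntG.up c F₀ ∈ v.asIdeal →
    IsCoprime (psi F₀ v.asIdeal - 1) (ℓ : 𝓞 K)
  base : ∀ (F : Type) [Field F] [NumberField F] [Algebra K F], Cpy F₀ F → BaseG ℓ F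

section
variable {μ : 𝓞 K} {F₀ L₀ : Type} [Field F₀] [NumberField F₀] [Algebra K F₀] [Field L₀]
  [NumberField L₀] [Algebra K L₀] [Algebra F₀ L₀] [IsScalarTower K F₀ L₀] [DecidableEq L₀]
  {J : Pt L₀}

/-- **Almost all primes are good.** -/
theorem goodEll_almost [IsGalois K L₀] (hJ : AbT μ K J) (hnice : LF.Nice F₀)
    (hg : AN.LGood F₀) (hb : BaseThm F₀) {c : 𝓞 K} (hc : c ≠ 0) :
    ∃ n : ℕ, n ≠ 0 ∧ ∀ ℓ : ℕ, ℓ.Prime → ¬ ℓ ∣ n → GoodEll μ c ℓ F₀ := by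
  obtain ⟨B, hB⟩ := hb
  obtain ⟨n1, h1, hn1⟩ := nav_almost (gB_ne hJ.ne) F₀
  obtain ⟨n2, h2, hn2⟩ := nav_almost hc F₀
  obtain ⟨n3, h3, hn3⟩ := AN.unit_almost F₀ hg
  have hμ0 := nAb_ne hJ.ne
  have hD0 : (6 * DD.D).natAbs ≠ 0 := Int.natAbs_ne_zero.2 (mul_ne_zero (by norm_num) DD.ne)
  have h2n : 2 ^ finrank K F₀ - 1 ≠ 0 := by
    have h0 : 0 < finrank K F₀ := finrank_pos
    have h00 : 2 ^ 1 ≤ 2 ^ finrank K F₀ := Nat.pow_le_pow_right (by norm_num) h0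
    omega
  refine ⟨(6 * DD.D).natAbs * nAb μ * n1 * n2 * n3 * B.factorial * (2 ^ finrank K F₀ - 1),
    mul_ne_zero (mul_ne_zero (mul_ne_zero (mul_ne_zero (mul_ne_zero (mul_ne_zero hD0 hμ0) h1) h2)
      h3) B.factorial_ne_zero) h2n, fun ℓ hℓ hd' => ?_⟩
  have e0 : ¬ ℓ ∣ 2 ^ finrank K F₀ - 1 := fun h => hd' (h.mul_left _)
  have hd : ¬ ℓ ∣ (6 * DD.D).natAbs * nAb μ * n1 * n2 * n3 * B.factorial :=
    fun h => hd' (h.mul_right _)
  have e1 : ¬ ℓ ∣ B.factorial := fun h => hd (h.mul_left _)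
  have e2 : ¬ ℓ ∣ n3 := fun h => hd ((h.mul_left _).mul_right _)
  have e3 : ¬ ℓ ∣ n2 := fun h => hd (((h.mul_left _).mul_right _).mul_right _)
  have e4 : ¬ ℓ ∣ n1 := fun h => hd ((((h.mul_left _).mul_right _).mul_right _).mul_right _)
  have e5 : ¬ ℓ ∣ nAb μ := fun h =>
    hd (((((h.mul_left _).mul_right _).mul_right _).mul_right _).mul_right _)
  have e6 : ¬ ℓ ∣ (6 * DD.D).natAbs := fun h =>
    hd (((((h.mul_right _).mul_right _).mul_right _).mul_right _).mul_right _)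
  have hD : ¬ (ℓ : ℤ) ∣ 6 * DD.D := fun h => e6 (Int.natCast_dvd.1 h)
  have hBl : B < ℓ := by
    by_contra h
    exact e1 ((Nat.Prime.dvd_factorial hℓ).2 (not_lt.1 h))
  have hun : DS.UnrL ℓ F₀ := unr_ab hJ hℓ hD e5
  refine ⟨hℓ, hD, e5, fun v hv _ => hn1 ℓ hℓ e4 v hv, hn2 ℓ hℓ e3, fun F _ _ _ hF => ?_⟩
  obtain ⟨e⟩ := hF
  let alg : Algebra F F₀ := (e.symm : F →+* F₀).toAlgebra
  refine ⟨?_, hnice.down, TG.unrL_down hℓ.ne_zero hun, unitProp_iso e (hn3 ℓ hℓ e2),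
    fun ϖ q hp => vt_iso e (hB ϖ ℓ q hp hBl).1, fun ϖ q hp => dt_iso e (hB ϖ ℓ q hp hBl).2⟩
  rw [← e.toLinearEquiv.finrank_eq]
  exact e0

end

/-- The conclusion for the rank. -/
def ConclR {N : Type} [Field N] [NumberField N] (W : WeierstrassCurve N) : Prop :=
  (∃ g : ℂ → ℂ, Differentiable ℂ g ∧ (∀ s : ℂ, 3 / 2 < s.re → g s = W.LSeries s) ∧ g 1 ≠ 0) ∧
    Finite W.toAffine.Point

/-- The ramification condition in terms of the number of points, outside of the places above `c`. -/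
def RamC (ℓ : ℕ) (D : ℤ) (c : 𝓞 K) (F₀ L : Type) [Field F₀] [NumberField F₀] [Algebra K F₀]
    [Field L] [NumberField L] [Algebra F₀ L] : Prop :=
  ∀ (v : HeightOneSpectrum (𝓞 F₀)) (w : HeightOneSpectrum (𝓞 L)),
    v.asIdeal.map (algebraMap (𝓞 F₀) (𝓞 L)) ≤ w.asIdeal ^ 2 →
      (ℓ : 𝓞 F₀) ∉ v.asIdeal ∧ (MP_1a91b9_ntG.up c F₀ ∉ v.asIdeal →
        ¬ ℓ ∣ Nat.card (⟨0, 0, 0, 0, ((D : ℤ) : 𝓞 F₀ ⧸ v.asIdeal)⟩ :
          WeierstrassCurve (𝓞 F₀ ⧸ v.asIdeal)).toAffine.Point)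

section
variable {μ c : 𝓞 K} {F₀ L₀ : Type} [Field F₀] [NumberField F₀] [Algebra K F₀] [Field L₀]
  [NumberField L₀] [Algebra K L₀] [Algebra F₀ L₀] [IsScalarTower K F₀ L₀] [DecidableEq L₀]
  {J : Pt L₀}

theorem ramG_of_ramC {ℓ : ℕ} (h : GoodEll μ c ℓ F₀) (hc : ((6 * DD.D : ℤ) : 𝓞 K) ∣ c)
    {L : Type} [Field L] [NumberField L] [Algebra F₀ L] (hL : RamC ℓ DD.D c F₀ L) :
    RamG ℓ F₀ L := by
  rintro v ⟨w, hw⟩
  obtain ⟨h1, h2⟩ := hL v w hw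
  refine ⟨h1, ?_⟩
  by_cases h3 : MP_1a91b9_ntG.up c F₀ ∈ v.asIdeal
  · exact h.nac v h3
  · refine cop_of_card h.prime v (fun h4 => h3 ?_) (h2 h3)
    have h5 := map_dvd (algebraMap (𝓞 K) (𝓞 F₀)) hc
    rw [map_intCast] at h5
    exact v.asIdeal.mem_of_dvd h5 h4

omit [HC] in
/-- the classes of the twists -/
theorem tw_cases (N L M : Type) [Field N] [NumberField N] [Field L] [NumberField L] [Field M]
    [NumberField M] [Algebra N L] [Algebra F₀ L] [Algebra L M] [Algebra F₀ M]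
    [IsScalarTower F₀ L M] {ℓ : ℕ} (hℓ : ℓ.Prime) (hD : ¬ (ℓ : ℤ) ∣ 6 * DD.D) (n : ℕ)
    (hM : finrank F₀ M = ℓ ^ n) (W : WeierstrassCurve N) (C : VariableChange L)
    (hC : C • W.baseChange L = MP_1a91b9_ntX.E L)
    (hW : ¬ (finrank K F₀).Coprime 6 →
      (∃ D : VariableChange N, D • W = LF.crv ((DD.D : ℤ) : N)) ∨
      ∃ D : VariableChange N, D • W = LF.crv ((-27 * DD.D : ℤ) : N)) :
    (∃ D : VariableChange N, D • W = LF.crv ((DD.D : ℤ) : N)) ∨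
      ∃ D : VariableChange N, D • W = LF.crv ((-27 * DD.D : ℤ) : N) := by
  by_cases h60 : (finrank K F₀).Coprime 6
  swap
  · exact hW h60
  let aKM : Algebra K M := ((algebraMap F₀ M).comp (algebraMap K F₀)).toAlgebra
  have t2 : IsScalarTower K F₀ M := IsScalarTower.of_algebraMap_eq fun x => rfl
  have h6 : (finrank K M).Coprime 6 := by
    rw [← Module.finrank_mul_finrank K F₀ M, hM]
    exact h60.mul_left ((coprime_six hℓ (five_le hℓ hD)).pow_left n)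
  refine LF.class_six N L M (fun h2 => ?_) (fun h3 => ?_) DD.D DD.ne W C hC
  · have h4 : 2 ∣ Nat.gcd (finrank K M) 6 := Nat.dvd_gcd h2 (by norm_num)
    rw [h6] at h4
    omega
  · have h4 : 3 ∣ Nat.gcd (finrank K M) 6 := Nat.dvd_gcd h3 (by norm_num)
    rw [h6] at h4
    omega

/-- **The conclusion for one prime number.** -/
theorem concl_ell [IsGalois K L₀] (hJ : AbT μ K J) (hfr : LF.Free6 DD.D)
    (hc : ((6 * DD.D : ℤ) : 𝓞 K) ∣ c) {ℓ : ℕ} (h : GoodEll μ c ℓ F₀)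
    (N L M : Type) [Field N] [NumberField N] [Field L]
    [NumberField L] [Field M] [NumberField M] [Algebra N L] [Algebra F₀ L] [Algebra L M]
    [Algebra F₀ M] [IsScalarTower F₀ L M] [IsGalois F₀ M] (n : ℕ) (hM : finrank F₀ M = ℓ ^ n)
    (hL : RamC ℓ DD.D c F₀ L) (W : WeierstrassCurve N) (C : VariableChange L)
    (hC : C • W.baseChange L = MP_1a91b9_ntX.E L)
    (hW : ¬ (finrank K F₀).Coprime 6 →
      (∃ D : VariableChange N, D • W = LF.crv ((DD.D : ℤ) : N)) ∨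
      ∃ D : VariableChange N, D • W = LF.crv ((-27 * DD.D : ℤ) : N)) : ConclR W := by
  let aKL : Algebra K L := ((algebraMap F₀ L).comp (algebraMap K F₀)).toAlgebra
  let aKM : Algebra K M := ((algebraMap F₀ M).comp (algebraMap K F₀)).toAlgebra
  have t1 : IsScalarTower K F₀ L := IsScalarTower.of_algebraMap_eq fun x => rfl
  have t2 : IsScalarTower K F₀ M := IsScalarTower.of_algebraMap_eq fun x => rfl
  have hRG := ramG_of_ramC h hc hL
  obtain ⟨h1, h2⟩ := dat_G h.prime h.good F₀ L M h.base n hM hRG L₀ hJ N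
  exact LF.twist_of h1 hfr h2 W (tw_cases N L M h.prime h.good n hM W C hC hW)

end

end Pool.Agent.Lib.MP_1a91b9_ntX.TG
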