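import Pool.Agent.Lib.MP_1a91b9_ntX.TG.Step
import Pool.Agent.Lib.MP_1a91b9_ntX.DB.Frob
import Pool.Agent.Lib.MP_1a91b9_ntX.DX.Defs
import Pool.Agent.Lib.MP_1a91b9_ntT.TG.Abel

/-!
# The character data inside the field of a torsion point (curves `y² = x³ + D`)

Port of MP_1a91b9_ntT/TG/Abel.lean.
-/

set_option autoImplicit false

namespace Pool.Agent.Lib.MP_1a91b9_ntX.TG

open NumberField IsDedekindDomain WeierstrassCurve Pool.Agent.Lib.MP_1a91b9_ntT
open Pool.Agent.Lib.MP_1a91b9_ntX.DB Pool.Agent.Lib.MP_1a91b9_ntX.DX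
open Pool.Agent.Lib.MP_1a91b9_nt (nrm nrm_eq)
open Pool.Agent.Lib.MP_1a91b9_ntG (addI addI_one addI_mul addI_place ideal_induction ram_eq)
open Pool.Agent.Lib.MP_1a91b9_ntT.S4 (nK)
open Pool.Agent.Lib.MP_1a91b9_ntT.CF (IsFr exists_over exists_fr)
open Pool.Agent.Lib.MP_1a91b9_ntT.TG (RayData)

export Pool.Agent.Lib.MP_1a91b9_ntT.TG (nAb nAb_ne dvd_nAb fermat_place val_one_of_not_mem)

universe u

variable [DD] [HC]

/-- `L / N` is generated by a torsion point. -/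
structure AbT (μ : 𝓞 K) (N : Type u) {L : Type u} [Field N] [NumberField N] [Algebra K N]
    [Field L] [NumberField L] [Algebra K L] [Algebra N L] [IsScalarTower K N L] [DecidableEq L]
    (T : Pt L) : Prop where
  ne : μ ≠ 0
  ord : Ord μ T
  gen : ∀ σ : Gal(L/N), ga σ T = T → σ = 1

/-- the modulus -/
noncomputable def gB (μ : 𝓞 K) : 𝓞 K := HC.f * (((6 * DD.D : ℤ) : 𝓞 K) * (nAb μ : 𝓞 K))

theorem six_ne : ((6 * DD.D : ℤ) : 𝓞 K) ≠ 0 :=
  Int.cast_ne_zero.2 (mul_ne_zero (by norm_num) DD.ne)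

theorem gB_ne {μ : 𝓞 K} (h : μ ≠ 0) : gB μ ≠ 0 :=
  mul_ne_zero AN.f_ne (mul_ne_zero six_ne (Nat.cast_ne_zero.2 (nAb_ne h)))

theorem f_dvd_gB (μ : 𝓞 K) : HC.f ∣ gB μ := dvd_mul_right _ _

theorem six_dvd_gB (μ : 𝓞 K) : ((6 * DD.D : ℤ) : 𝓞 K) ∣ gB μ :=
  (dvd_mul_right _ _).mul_left _

theorem nAb_dvd_gB (μ : 𝓞 K) : (nAb μ : 𝓞 K) ∣ gB μ := (dvd_mul_left _ _).mul_left _

theorem nsmul_nAb {F : Type*} [Field F] [Algebra K F] [DecidableEq F] {μ : 𝓞 K} {T : Pt F}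
    (h : Ord μ T) : nAb μ • T = 0 := by
  rw [← sm_nat, h]
  exact dvd_nAb μ

/-- `ψ` of a principal ideal with a generator congruent to one modulo the conductor -/
theorem psi_span_one {F : Type u} [Field F] [NumberField F] [Algebra K F] {z : 𝓞 F}
    (h : MP_1a91b9_ntG.up HC.f F ∣ z - 1) : psi F (Ideal.span {z}) = nK z := by
  have h1 := S4.nK_congr (F := F) HC.f z 1 h
  rw [S4.nK_one] at h1
  rw [psi, S4.relNorm_span]
  exact HC.hd.ray _ h1

theorem val_six_of_not_mem {F : Type u} [Field F] [NumberField F]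
    (w : HeightOneSpectrum (𝓞 F)) (h : ((6 * DD.D : ℤ) : 𝓞 F) ∉ w.asIdeal) :
    w.valuation F (bD F) = 1 := by
  have e : algebraMap (𝓞 F) F ((6 * DD.D : ℤ) : 𝓞 F) = bD F := map_intCast (algebraMap (𝓞 F) F) _
  rw [← e]
  refine le_antisymm (w.valuation_le_one _) (not_lt.1 fun h1 => h ?_)
  exact (w.valuation_lt_one_iff_mem (K := F) _).1 h1

section
variable {μ : 𝓞 K} {N N₁ L : Type u} [Field N] [NumberField N] [Algebra K N] [Field N₁]
  [NumberField N₁] [Algebra K N₁] [Field L] [NumberField L] [Algebra K L] [Algebra N N₁]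
  [Algebra N L] [Algebra N₁ L] [IsScalarTower K N N₁] [IsScalarTower K N L]
  [IsScalarTower K N₁ L] [IsScalarTower N N₁ L] [DecidableEq L] [IsGalois N N₁] [IsGalois N L]
  {T : Pt L} (hT : AbT μ N T) {m : Ideal (𝓞 N)}
  (hm : m ≤ Ideal.span {MP_1a91b9_ntG.up (gB μ) N})

include hT hm

theorem AbT.exists_fr (v : HeightOneSpectrum (𝓞 N)) (hv : ¬ m ≤ v.asIdeal) :
    ∃ (W : HeightOneSpectrum (𝓞 L)) (σ : Gal(L/N)), W.under (𝓞 N) = v ∧ IsFr v W σ ∧
      ga σ T = sm L (psi N v.asIdeal) T := by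
  obtain ⟨W, hW⟩ := exists_over (N := L) v
  obtain ⟨σ, hσ⟩ := CF.exists_fr (k := N) W
  rw [hW] at hσ
  have h1 : ∀ c : 𝓞 K, c ∣ gB μ → algebraMap (𝓞 K) (𝓞 N) c ∉ v.asIdeal := by
    intro c hc h
    refine hv (hm.trans ((Ideal.span_singleton_le_iff_mem _).2 ?_))
    exact v.asIdeal.mem_of_dvd (map_dvd (algebraMap (𝓞 K) (𝓞 N)) hc) h
  have h3 : ((6 * DD.D : ℤ) : 𝓞 L) ∉ W.asIdeal := by
    intro h
    apply h1 _ (six_dvd_gB μ)
    rw [map_intCast, ← hW]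
    change algebraMap (𝓞 N) (𝓞 L) _ ∈ W.asIdeal
    rwa [map_intCast]
  have h4 : ((nAb μ : ℕ) : 𝓞 L) ∉ W.asIdeal := by
    intro h
    apply h1 _ (nAb_dvd_gB μ)
    rw [map_natCast, ← hW]
    change algebraMap (𝓞 N) (𝓞 L) _ ∈ W.asIdeal
    rwa [map_natCast]
  refine ⟨W, σ, hW, hσ, ?_⟩
  have h5 := frob_psi (k := N) W (val_six_of_not_mem W h3) σ (fun x => by
    rw [hW, ← nrm_eq]
    exact hσ x) (val_one_of_not_mem W _ h4) (nsmul_nAb hT.ord)
  rw [hW] at h5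
  exact h5

/-- the Artin map on the ideals -/
theorem AbT.exists_art {p : ℕ} [Fact p.Prime] {σ₀ : Gal(N₁/N)} (hσp : σ₀ ^ p = 1)
    {x : HeightOneSpectrum (𝓞 N) → ZMod p}
    (hx : ∀ v : HeightOneSpectrum (𝓞 N), ¬ m ≤ v.asIdeal → ∃ σ : Gal(L/N),
      ga σ T = sm L (psi N v.asIdeal) T ∧ rs N₁ σ = σ₀ ^ (x v).val)
    (I : Ideal (𝓞 N)) (hI0 : I ≠ 0) (hI : IsCoprime I m) :
    ∃ τ : Gal(L/N), ga τ T = sm L (psi N I) T ∧ rs N₁ τ = σ₀ ^ (addI x I).val := by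
  have hpow : ∀ a b : ZMod p, σ₀ ^ a.val * σ₀ ^ b.val = σ₀ ^ (a + b).val := by
    intro a b
    rw [← pow_add, ZMod.val_add, ← pow_eq_pow_mod _ hσp]
  refine ideal_induction (P := fun I => IsCoprime I m → ∃ τ : Gal(L/N),
    ga τ T = sm L (psi N I) T ∧ rs N₁ τ = σ₀ ^ (addI x I).val) ?_ ?_ I hI0 hI
  · intro _
    refine ⟨1, ?_, ?_⟩
    · rw [psi_one, map_one, ga_one]
      rfl
    · rw [addI_one, ZMod.val_zero, pow_zero]
      apply AlgEquiv.ext
      intro y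
      apply (algebraMap N₁ L).injective
      rw [rs_apply, AlgEquiv.one_apply, AlgEquiv.one_apply]
  · intro v J hJ ih hc
    obtain ⟨τ, h1, h2⟩ := ih hc.of_mul_left_left
    obtain ⟨σ, h3, h4⟩ := hx v (fun h => by
      have h5 := hc.of_mul_left_right
      exact ((S4.le_iff_not_coprime m v).1 h) h5)
    refine ⟨τ * σ, ?_, ?_⟩
    · rw [ga_mul, h3, ga_sm, h1, psi_mul, mul_comm, map_mul]
      rfl
    · rw [rs_mul, h2, h4, hpow, addI_mul x J _ hJ v.ne_bot, addI_place]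

/-- The character data of a subextension of prime degree. -/
theorem AbT.exists_rayData {p : ℕ} [hp : Fact p.Prime] (hL : Module.finrank N N₁ = p)
    (hm1 : m ≠ 1) (hram : ∀ v : HeightOneSpectrum (𝓞 N), MP_1a91b9_ntG.Ram N₁ v → m ≤ v.asIdeal) :
    ∃ x : HeightOneSpectrum (𝓞 N) → ZMod p, RayData p N₁ m x := by
  classical
  have hfd : FiniteDimensional N N₁ := Module.Finite.of_restrictScalars_finite ℚ N N₁
  have hcard : Nat.card Gal(N₁/N) = p := by rw [IsGalois.card_aut_eq_finrank, hL]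
  have hcyc : IsCyclic Gal(N₁/N) := isCyclic_of_prime_card hcard
  obtain ⟨σ₀, hσ₀⟩ := IsCyclic.exists_generator (α := Gal(N₁/N))
  have hord : orderOf σ₀ = p := by rw [orderOf_eq_card_of_forall_mem_zpowers hσ₀, hcard]
  have hσp : σ₀ ^ p = 1 := by rw [← hord, pow_orderOf_eq_one]
  have hpow0 : ∀ a : ZMod p, σ₀ ^ a.val = 1 → a = 0 := by
    intro a ha
    have h1 := orderOf_dvd_of_pow_eq_one ha
    rw [hord] at h1
    have h2 := Nat.eq_zero_of_dvd_of_lt h1 (ZMod.val_lt a)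
    exact (ZMod.val_eq_zero a).1 h2
  have hrep : ∀ τ : Gal(N₁/N), ∃ a : ZMod p, τ = σ₀ ^ a.val := by
    intro τ
    obtain ⟨n, hn⟩ := (mem_powers_iff_mem_zpowers.2 (hσ₀ τ))
    refine ⟨(n : ZMod p), ?_⟩
    rw [ZMod.val_natCast, ← pow_eq_pow_mod _ hσp]
    exact hn.symm
  have hex : ∀ v : HeightOneSpectrum (𝓞 N), ∃ a : ZMod p, ¬ m ≤ v.asIdeal →
      ∃ (W : HeightOneSpectrum (𝓞 L)) (σ : Gal(L/N)), W.under (𝓞 N) = v ∧ IsFr v W σ ∧
        ga σ T = sm L (psi N v.asIdeal) T ∧ rs N₁ σ = σ₀ ^ a.val := by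
    intro v
    by_cases hv : m ≤ v.asIdeal
    · exact ⟨0, fun h => absurd hv h⟩
    · obtain ⟨W, σ, h1, h2, h3⟩ := hT.exists_fr hm v hv
      obtain ⟨a, ha⟩ := hrep (rs N₁ σ)
      exact ⟨a, fun _ => ⟨W, σ, h1, h2, h3, ha⟩⟩
  choose x hx using hex
  refine ⟨x, fun v hv h => hv (hram v h), fun v hv => ?_, fun z hz hzm => ?_⟩
  · obtain ⟨W, σ, h1, h2, h3, h4⟩ := hx v hv
    have hnr : ¬ MP_1a91b9_ntG.Ram N₁ v := fun h => hv (hram v h)
    have hw : ((W.under (𝓞 N₁)).asIdeal).under (𝓞 N) = v.asIdeal := by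
      rw [← h1]
      exact Ideal.under_under _
    obtain ⟨w, hwdef⟩ : ∃ w : S4.Over N₁ v, w.1 = W.under (𝓞 N₁) := ⟨⟨_, hw⟩, rfl⟩
    constructor
    · intro hx0
      rw [hx0, ZMod.val_zero, pow_zero] at h4
      have hfix : ∀ y : N₁, σ (algebraMap N₁ L y) = algebraMap N₁ L y := by
        intro y
        rw [← rs_apply, h4, AlgEquiv.one_apply]
      have hdeg := CF.fr_fix (k := N) (L := N₁) W σ (nrm v ^ 1) 1 v h1 rfl one_pos (by
        intro y
        rw [pow_one]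
        exact h2 y) hfix
      rcases MP_1a91b9_ntG.cyc_cases hp.out hL v with ⟨_, h5, _⟩ | ⟨_, _, h6⟩ | ⟨h5, _, _⟩
      · exact h5
      · exfalso
        have h7 := (h6 w).1
        rw [hwdef] at h7
        rw [h7] at hdeg
        exact hp.out.one_lt.ne' (Nat.dvd_one.1 hdeg)
      · exact absurd h5 hnr
    · intro hc
      rcases MP_1a91b9_ntG.cyc_cases hp.out hL v with ⟨_, _, h6⟩ | ⟨_, h6, _⟩ | ⟨h5, _, _⟩
      · have h7 := (h6 w).2
        rw [hwdef] at h7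
        have hfix := CF.fix_of_triv (k := N) (L := N₁) W σ (by
          rw [h1]
          exact fun h => hnr ((ram_eq v).2 h)) (by
          intro y
          have h8 := h2 (algebraMap (𝓞 N₁) (𝓞 L) y)
          have h9 : (algebraMap (𝓞 N₁) (𝓞 L) y) ^ nrm v - algebraMap (𝓞 N₁) (𝓞 L) y ∈
              W.asIdeal := by
            rw [← h7, ← map_pow, ← map_sub]
            exact fermat_place (W.under (𝓞 N₁)) y
          have h10 := W.asIdeal.add_mem h8 h9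
          rwa [sub_add_sub_cancel] at h10)
        apply hpow0
        rw [← h4]
        apply AlgEquiv.ext
        intro y
        apply (algebraMap N₁ L).injective
        rw [rs_apply, hfix, AlgEquiv.one_apply]
      · exfalso
        rw [hc] at h6
        exact hp.out.one_lt.ne' h6
      · exact absurd h5 hnr
  · have h3n : algebraMap (𝓞 K) (𝓞 N) (gB μ) ∣ z - 1 := Ideal.mem_span_singleton.1 (hm hzm)
    have h3 : MP_1a91b9_ntG.up HC.f N ∣ z - 1 :=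
      (map_dvd (algebraMap (𝓞 K) (𝓞 N)) (f_dvd_gB μ)).trans h3n
    have hn : algebraMap (𝓞 K) (𝓞 N) ((nAb μ : ℕ) : 𝓞 K) ∣ z - 1 :=
      (map_dvd (algebraMap (𝓞 K) (𝓞 N)) (nAb_dvd_gB μ)).trans h3n
    have hcop : IsCoprime (Ideal.span {z}) m := by
      rw [Ideal.isCoprime_iff_exists]
      refine ⟨z, Ideal.mem_span_singleton_self z, 1 - z, ?_, by ring⟩
      have e : 1 - z = -(z - 1) := by ring
      rw [e]
      exact m.neg_mem hzm
    have hz0 : Ideal.span {z} ≠ (0 : Ideal (𝓞 N)) := by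
      rw [Ne, Ideal.zero_eq_bot, Ideal.span_singleton_eq_bot]
      exact hz
    obtain ⟨τ, h1, h2⟩ := hT.exists_art hm hσp (x := x) (fun v hv => by
      obtain ⟨W, σ, _, _, h3, h4⟩ := hx v hv
      exact ⟨σ, h3, h4⟩) _ hz0 hcop
    have h4 := S4.nK_congr (F := N) ((nAb μ : ℕ) : 𝓞 K) z 1 hn
    rw [S4.nK_one] at h4
    have h5 : μ ∣ nK z - 1 := (dvd_nAb μ).trans h4
    have h6 : ga τ T = T := by
      rw [h1, psi_span_one h3]
      have h7 := (hT.ord (nK z - 1)).2 h5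
      rw [map_sub, map_one] at h7
      have h8 : sm L (nK z) T - T = 0 := h7
      exact sub_eq_zero.1 h8
    have h7 := hT.gen τ h6
    apply hpow0
    rw [← h2, h7]
    apply AlgEquiv.ext
    intro y
    apply (algebraMap N₁ L).injective
    rw [rs_apply, AlgEquiv.one_apply, AlgEquiv.one_apply]

end

end Pool.Agent.Lib.MP_1a91b9_ntX.TG
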