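import Pool.Agent.Lib.MP_1a91b9_ntX.LF.LocA
import Pool.Agent.Lib.MP_1a91b9_ntT.TG.Cnt

/-!
# `ψ - 1` is prime to `ℓ` when the number of points of the reduction is (curves `y² = x³ + D`)
-/

set_option autoImplicit false

namespace Pool.Agent.Lib.MP_1a91b9_ntX.TG

open NumberField IsDedekindDomain Module Polynomial WeierstrassCurve
  Pool.Agent.Lib.MP_1a91b9_ntT
open Pool.Agent.Lib.MP_1a91b9_ntT.S4 (cO embK_tau)
open Pool.Agent.Lib.MP_1a91b9_nt
open Pool.Agent.Lib.MP_1a91b9_ntX.LF (crv crv_map locPoly_crv loc_A)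
open Pool.Agent.Lib.MP_1a91b9_ntT.TG (exists_res_equiv)

variable [DD] [HC] {F : Type} [Field F] [NumberField F] [Algebra K F]

theorem psi_prod (q : HeightOneSpectrum (𝓞 F)) (h6 : ((6 * DD.D : ℤ) : 𝓞 F) ∉ q.asIdeal) :
    (1 - AN.psC F q.asIdeal) * (1 - AN.psbC F q.asIdeal) =
      ((Nat.card (crv ((DD.D : ℤ) : IsLocalRing.ResidueField
        (q.adicCompletionIntegers F))).toAffine.Point : ℕ) : ℂ) := by
  have hC : (1 : VariableChange F) • crv ((DD.D : ℤ) : F) = crv ((DD.D : ℤ) : F) := one_smul _ _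
  have h1 := (loc_A q h6 _ 1 hC).2 1
  rw [mul_one, mul_one, locPoly_crv q DD.D h6 _ 1 hC] at h1
  rw [← h1]
  simp only [map_add, map_sub, map_one, map_mul, aeval_X, map_pow, map_natCast]
  ring

theorem cop_of_res {ℓ : ℕ} (q : HeightOneSpectrum (𝓞 F))
    (h6 : ((6 * DD.D : ℤ) : 𝓞 F) ∉ q.asIdeal)
    (hc : (Nat.card (crv ((DD.D : ℤ) : IsLocalRing.ResidueField
        (q.adicCompletionIntegers F))).toAffine.Point).Coprime ℓ) :
    IsCoprime (psi F q.asIdeal - 1) (ℓ : 𝓞 K) := by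
  have h := psi_prod q h6
  rw [AN.psbC, AN.psC] at h
  refine Ell.kq_odd' _ _ hc (cO (psi F q.asIdeal) - 1) ?_
  have hinj : Function.Injective (fun x : 𝓞 K => embK (x : K)) := fun x y hxy =>
    RingOfIntegers.ext (embK.toRingHom.injective hxy)
  apply hinj
  change embK (algebraMap (𝓞 K) K _) = embK (algebraMap (𝓞 K) K _)
  rw [map_mul, map_sub, map_sub, map_one, map_natCast, map_mul, map_sub, map_sub, map_one,
    map_natCast]
  have h2 : embK (algebraMap (𝓞 K) K (cO (psi F q.asIdeal))) =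
      (starRingEnd ℂ) (embK (psi F q.asIdeal : K)) := embK_tau _
  rw [h2, ← h]
  ring

/-- `ψ - 1` is prime to `ℓ` when the number of points over the residue field is. -/
theorem cop_of_card {ℓ : ℕ} (hℓ : ℓ.Prime) (q : HeightOneSpectrum (𝓞 F))
    (h6 : ((6 * DD.D : ℤ) : 𝓞 F) ∉ q.asIdeal)
    (hc : ¬ ℓ ∣ Nat.card (⟨0, 0, 0, 0, ((DD.D : ℤ) : 𝓞 F ⧸ q.asIdeal)⟩ :
      WeierstrassCurve (𝓞 F ⧸ q.asIdeal)).toAffine.Point) :
    IsCoprime (psi F q.asIdeal - 1) (ℓ : 𝓞 K) := by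
  obtain ⟨e⟩ := exists_res_equiv q
  have hm : q.asIdeal.IsMaximal := q.isMaximal
  letI : Field (𝓞 F ⧸ q.asIdeal) := Ideal.Quotient.field _
  have h1 := card_point_map_equiv (crv ((DD.D : ℤ) : 𝓞 F ⧸ q.asIdeal)) e
  have h2 : (crv ((DD.D : ℤ) : 𝓞 F ⧸ q.asIdeal)).map e.toRingHom =
      crv ((DD.D : ℤ) : IsLocalRing.ResidueField (q.adicCompletionIntegers F)) := by
    rw [crv_map, map_intCast]
  rw [h2] at h1
  apply cop_of_res q h6
  rw [h1]
  exact Nat.Coprime.symm ((Nat.Prime.coprime_iff_not_dvd hℓ).2 hc)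

end Pool.Agent.Lib.MP_1a91b9_ntX.TG
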