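import Pool.Agent.Lib.MP_1a91b9_ntX.DS.Tower
import Pool.Agent.Lib.MP_1a91b9_ntX.DX.Cj
import Pool.Agent.Lib.MP_1a91b9_ntX.DX.ExPD
import Pool.Agent.Lib.MP_1a91b9_ntX.AN.Val
import Pool.Agent.Lib.MP_1a91b9_ntX.AN.Alg
import Pool.Agent.Lib.MP_1a91b9_ntX.LF.Nice

/-!
# Towers over a general base field for `y² = x³ + D`: the property of the base field
-/

set_option autoImplicit false

namespace Pool.Agent.Lib.MP_1a91b9_ntX.TG

open NumberField IsDedekindDomain WeierstrassCurve Pool.Agent.Lib.MP_1a91b9_ntT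
open Pool.Agent.Lib.MP_1a91b9_ntX.DB Pool.Agent.Lib.MP_1a91b9_ntX.DX
  Pool.Agent.Lib.MP_1a91b9_ntX.DS

export Pool.Agent.Lib.MP_1a91b9_ntX.DS (TowerG)

universe u

/-- The property of the base field: the `ℓ`-part of the Birch and Swinnerton-Dyer conjecture for
`y² = x³ + D` over `F` in the form used by the tower. -/
structure BaseG [DD] [HC] (ℓ : ℕ) (F : Type u) [Field F] [NumberField F] [Algebra K F] :
    Prop where
  e2 : ¬ ℓ ∣ 2 ^ Module.finrank K F - 1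
  nice : LF.Nice F
  unr : UnrL ℓ F
  unit : AN.UnitProp ℓ Om F
  vt : ∀ (ϖ : 𝓞 K) (q : ℕ), PD ϖ ℓ q → VT ϖ ℓ F
  dt : ∀ (ϖ : 𝓞 K) (q : ℕ), PD ϖ ℓ q → DT ϖ F

section
variable [DD] [HC]

/-- a prime number not dividing `6 D` is prime to the conductor -/
theorem f_coprime {ℓ : ℕ} (hℓ : ℓ.Prime) (hD : ¬ (ℓ : ℤ) ∣ 6 * DD.D) :
    IsCoprime (HC.f : 𝓞 K) (ℓ : 𝓞 K) := by
  rw [← Ideal.isCoprime_span_singleton_iff, Ideal.isCoprime_iff_sup_eq]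
  by_contra hc
  obtain ⟨P, hP, hle⟩ := Ideal.exists_le_maximal _ hc
  have h1 : (ℓ : 𝓞 K) ∈ P := hle (Ideal.mem_sup_right (Ideal.mem_span_singleton_self _))
  have h2 : (HC.f : 𝓞 K) ∈ P := hle (Ideal.mem_sup_left (Ideal.mem_span_singleton_self _))
  have hb : P ≠ ⊥ := by
    rintro rfl
    exact (Nat.cast_ne_zero.2 hℓ.ne_zero : (ℓ : 𝓞 K) ≠ 0) ((Submodule.mem_bot _).1 h1)
  have h3 : ((6 * DD.D : ℤ) : 𝓞 K) ∈ P := HC.hd.good ⟨P, hP.isPrime, hb⟩ h2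
  have h4 : IsCoprime (ℓ : ℤ) (6 * DD.D) :=
    (Prime.coprime_iff_not_dvd (Nat.prime_iff_prime_int.1 hℓ)).2 hD
  obtain ⟨a, b, hab⟩ := h4
  apply hP.ne_top
  rw [Ideal.eq_top_iff_one]
  have h5 : (1 : 𝓞 K) = (a : 𝓞 K) * (ℓ : 𝓞 K) + (b : 𝓞 K) * ((6 * DD.D : ℤ) : 𝓞 K) := by
    have h6 := congrArg (Int.cast (R := 𝓞 K)) hab
    rw [Int.cast_add, Int.cast_mul, Int.cast_mul, Int.cast_natCast, Int.cast_one] at h6
    exact h6.symm
  rw [h5]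
  exact P.add_mem (P.mul_mem_left _ h1) (P.mul_mem_left _ h3)

omit [HC] in
theorem five_le {ℓ : ℕ} (hℓ : ℓ.Prime) (hD : ¬ (ℓ : ℤ) ∣ 6 * DD.D) : 5 ≤ ℓ := by
  have h2 : ℓ ≠ 2 := by
    rintro rfl
    exact hD (Dvd.dvd.mul_right (by norm_num) _)
  have h3 : ℓ ≠ 3 := by
    rintro rfl
    exact hD (Dvd.dvd.mul_right (by norm_num) _)
  have h4 : ℓ ≠ 4 := by
    rintro rfl
    revert hℓ
    decide
  have := hℓ.two_le
  omega

end

end Pool.Agent.Lib.MP_1a91b9_ntX.TG
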