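import Pool.Agent.Lib.MP_1a91b9_ntX.TG.Dat

/-!
# The nonvanishing over `F₀ = N₀ K` from the nonvanishing over `N₀` (curves `y² = x³ + D`)
-/

set_option autoImplicit false

namespace Pool.Agent.Lib.MP_1a91b9_ntX.TG

open NumberField IsDedekindDomain Module WeierstrassCurve IntermediateField Polynomial
  Pool.Agent.Lib.MP_1a91b9_ntT
open Pool.Agent.Lib.MP_1a91b9_nt
open Pool.Agent.Lib.MP_1a91b9_ntT.S4 (Lf entire_eq differentiable_conj_conj)
open Pool.Agent.Lib.MP_1a91b9_ntT.PT (exists_hom map_om)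
open Pool.Agent.Lib.MP_1a91b9_ntX.LF (crv)

universe u

variable [DD] [HC]

/-- the nonvanishing over a field which contains `K` -/
theorem lgood_of_gK {F : Type u} [Field F] [NumberField F] [Algebra K F] (hc : LF.Nice F)
    (hfr : LF.Free6 DD.D) (W : WeierstrassCurve F) (C : VariableChange F)
    (hC : C • W = crv ((DD.D : ℤ) : F)) {g : ℂ → ℂ} (hg : Differentiable ℂ g)
    (hgs : ∀ s : ℂ, 3 / 2 < s.re → g s = W.LSeries s) (h1 : g 1 ≠ 0) : AN.LGood F := by
  obtain ⟨L, hL, hL1, -⟩ := AN.value_alg F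
  refine ⟨L, hL, hL1, fun h0 => h1 ?_⟩
  have hgL : g = fun s => (starRingEnd ℂ) (L ((starRingEnd ℂ) s)) * L s := by
    refine entire_eq hg ((differentiable_conj_conj hL).mul hL) fun s hs => ?_
    change _ = (starRingEnd ℂ) (L ((starRingEnd ℂ) s)) * L s
    rw [hgs s (by linarith), LF.LSeries_K hc hfr W C hC s (by linarith), hL1 s hs,
      hL1 _ (by rw [Complex.conj_re]; exact hs), LF.Lf_conj]
  rw [hgL]
  change (starRingEnd ℂ) (L ((starRingEnd ℂ) 1)) * L 1 = 0
  rw [h0, mul_zero]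

/-- the nonvanishing over a field without `√-3` -/
theorem lgood_of_gN {N F : Type u} [Field N] [NumberField N] [Field F] [NumberField F]
    [Algebra N F] [Algebra K F] (hL : finrank N F = 2)
    (hn : ∀ x : N, algebraMap N F x ≠ algebraMap K F om) (h : LF.Nice N)
    (hfr : LF.Free6 DD.D) (W : WeierstrassCurve N) (C : VariableChange N)
    (hC : C • W = crv ((DD.D : ℤ) : N)) {g : ℂ → ℂ} (hg : Differentiable ℂ g)
    (hgs : ∀ s : ℂ, 3 / 2 < s.re → g s = W.LSeries s) (h1 : g 1 ≠ 0) : AN.LGood F := by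
  refine ⟨g, hg, fun s hs => ?_, h1⟩
  rw [hgs s (by linarith), LF.LSeries_N hL hn h hfr DD.D (Or.inl rfl) W C hC s (by linarith)]

theorem lgood_iso {F₀ F : Type} [Field F₀] [NumberField F₀] [Algebra K F₀] [Field F]
    [NumberField F] [Algebra K F] (e : F₀ ≃ₐ[K] F) (h : AN.LGood F₀) : AN.LGood F := by
  let alg : Algebra F F₀ := (e.symm : F →+* F₀).toAlgebra
  have hst : IsScalarTower K F F₀ := IsScalarTower.of_algebraMap_eq fun x =>
    (e.symm.commutes x).symm
  have hb : Function.Bijective (algebraMap F F₀) := e.symm.bijective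
  have hG : IsGalois F F₀ := IsGalois.of_algEquiv (AlgEquiv.ofBijective (Algebra.ofId F F₀) hb)
  have h1 : finrank F F₀ = 1 :=
    (LinearEquiv.ofBijective (Algebra.linearMap F F₀) hb).finrank_eq.symm.trans (finrank_self F)
  exact lgood_one h1 h

/-- **The nonvanishing over `F₀ = N₀ K`.** -/
theorem lgood_of_N₀ {N₀ F₀ : Type} [Field N₀] [NumberField N₀] [Field F₀] [NumberField F₀]
    [Algebra K F₀] [Algebra N₀ F₀]
    (hN : IntermediateField.adjoin N₀ (Set.range (algebraMap K F₀)) = ⊤) (hc : LF.Nice F₀)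
    (hfr : LF.Free6 DD.D) (W : WeierstrassCurve N₀) (C : VariableChange N₀)
    (hC : C • W = crv ((DD.D : ℤ) : N₀)) {g : ℂ → ℂ} (hg : Differentiable ℂ g)
    (hgs : ∀ s : ℂ, 3 / 2 < s.re → g s = W.LSeries s) (h1 : g 1 ≠ 0) : AN.LGood F₀ := by
  have hgen : IntermediateField.adjoin N₀ {algebraMap K F₀ om} = ⊤ := by
    rw [eq_top_iff, ← hN, IntermediateField.adjoin_le_iff]
    rintro _ ⟨z, rfl⟩
    have hz : z ∈ Algebra.adjoin ℚ {om} := by
      rw [IsCyclotomicExtension.adjoin_primitive_root_eq_top om_spec]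
      exact Algebra.mem_top
    have h3 : (IsScalarTower.toAlgHom ℚ K F₀) z ∈
        (Algebra.adjoin ℚ {om}).map (IsScalarTower.toAlgHom ℚ K F₀) := ⟨z, hz, rfl⟩
    rw [AlgHom.map_adjoin, Set.image_singleton] at h3
    have h4 : Algebra.adjoin ℚ {(IsScalarTower.toAlgHom ℚ K F₀) om} ≤
        ((IntermediateField.adjoin N₀ {algebraMap K F₀ om}).restrictScalars ℚ).toSubalgebra := by
      rw [Algebra.adjoin_le_iff]
      rintro _ rfl
      exact mem_adjoin_simple_self N₀ _
    exact h4 h3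
  rcases exists_sub F₀ N₀ with ⟨aKN, hst⟩ | ⟨F, _, _, _, _, _, t1, t2, h2, hn⟩
  · have hb : Function.Bijective (algebraMap N₀ F₀) := by
      refine ⟨(algebraMap N₀ F₀).injective, fun y => ?_⟩
      have h5 : y ∈ (⊥ : IntermediateField N₀ F₀) := by
        have h6 : IntermediateField.adjoin N₀ {algebraMap K F₀ om} ≤ ⊥ := by
          rw [adjoin_simple_le_iff, IntermediateField.mem_bot]
          exact ⟨algebraMap K N₀ om, (IsScalarTower.algebraMap_apply K N₀ F₀ om).symm⟩
        rw [hgen] at h6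
        exact h6 mem_top
      exact IntermediateField.mem_bot.1 h5
    let e : N₀ ≃ₐ[K] F₀ := AlgEquiv.ofBijective (IsScalarTower.toAlgHom K N₀ F₀) hb
    exact lgood_iso e (lgood_of_gK hc.down hfr W C hC hg hgs h1)
  · have hb : Function.Bijective (algebraMap F F₀) := by
      refine ⟨(algebraMap F F₀).injective, fun y => ?_⟩
      have h6 : IntermediateField.adjoin N₀ {algebraMap K F₀ om} ≤
          (IsScalarTower.toAlgHom N₀ F F₀).fieldRange := by
        rw [adjoin_simple_le_iff]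
        exact ⟨algebraMap K F om, (IsScalarTower.algebraMap_apply K F F₀ om).symm⟩
      rw [hgen] at h6
      obtain ⟨z, hz⟩ := h6 (mem_top (x := y))
      exact ⟨z, hz⟩
    let e : F ≃ₐ[K] F₀ := AlgEquiv.ofBijective (IsScalarTower.toAlgHom K F F₀) hb
    exact lgood_iso e (lgood_of_gN h2 hn (hc.down (N := N₀)) hfr W C hC hg hgs h1)

end Pool.Agent.Lib.MP_1a91b9_ntX.TG
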