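import Pool.Agent.Lib.MP_1a91b9_ntX.TG.Red
import Pool.Agent.Lib.MP_1a91b9_ntX.TG.LG
import Pool.Agent.Lib.MP_1a91b9_ntX.R.Fj
import Pool.Agent.Lib.MP_1a91b9_ntX.DK.Base
import Pool.Agent.Lib.MP_1a91b9_ntX.PX.Dat
import Pool.Agent.Lib.MP_1a91b9_ntT.PT.Main

/-!
# Theorem G2: towers over abelian fields for all the curves `y² = x³ + D`
-/

set_option autoImplicit false

namespace Pool.Agent.Lib.MP_1a91b9_ntX.TG

open NumberField IsDedekindDomain Module WeierstrassCurve Pool.Agent.Lib.MP_1a91b9_ntT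
open Pool.Agent.Lib.MP_1a91b9_nt
open Pool.Agent.Lib.MP_1a91b9_ntX.DB

/-- The ramification condition for the curve `y² = x³ + D`. -/
def RamX (ℓ : ℕ) (D : ℤ) (F₀ L : Type) [Field F₀] [NumberField F₀]
    [Field L] [NumberField L] [Algebra F₀ L] : Prop :=
  ∀ (v : HeightOneSpectrum (𝓞 F₀)) (w : HeightOneSpectrum (𝓞 L)),
    v.asIdeal.map (algebraMap (𝓞 F₀) (𝓞 L)) ≤ w.asIdeal ^ 2 →
      (ℓ : 𝓞 F₀) ∉ v.asIdeal ∧ (((6 * D : ℤ) : 𝓞 F₀) ∉ v.asIdeal →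
        ¬ ℓ ∣ Nat.card (⟨0, 0, 0, 0, ((D : ℤ) : 𝓞 F₀ ⧸ v.asIdeal)⟩ :
          WeierstrassCurve (𝓞 F₀ ⧸ v.asIdeal)).toAffine.Point)

/-- The curve `W` is isomorphic over `N` to `y² = x³ + D` or to `y² = x³ - 27 D`. -/
def Tw (D : ℤ) {N : Type} [Field N] (W : WeierstrassCurve N) : Prop :=
  (∃ C : VariableChange N, C • W = ⟨0, 0, 0, 0, ((D : ℤ) : N)⟩) ∨
    ∃ C : VariableChange N, C • W = ⟨0, 0, 0, 0, ((-27 * D : ℤ) : N)⟩

/-- The conclusion for all the fields of the tower; `d` is the degree of the base field over the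
field of the cube roots of unity. -/
def TowX (ℓ : ℕ) (D : ℤ) (d : ℕ) (F₀ : Type) [Field F₀] [NumberField F₀] : Prop :=
  ∀ (n : ℕ) (N L M : Type) [Field N] [NumberField N] [Field L] [NumberField L] [Field M]
    [NumberField M] [Algebra N L] [Algebra F₀ L] [Algebra L M] [Algebra F₀ M]
    [IsScalarTower F₀ L M] [IsGalois F₀ M], finrank F₀ M = ℓ ^ n → RamX ℓ D F₀ L →
    ∀ (W : WeierstrassCurve N) (C : VariableChange L),
      C • W.baseChange L = ⟨0, 0, 0, 0, ((D : ℤ) : L)⟩ → (¬ d.Coprime 6 → Tw D W) →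
      ConclR W ∧ ∀ _ : Fact ℓ.Prime, MP_1a91b9_ntT.PL.Concl ℓ W

/-- The ramification indices above `6 D` are prime to `6`. -/
def RamSix (D : ℤ) (k F₀ : Type) [Field k] [NumberField k] [Field F₀] [NumberField F₀]
    [Algebra k F₀] : Prop :=
  ∀ w : HeightOneSpectrum (𝓞 F₀), ((6 * D : ℤ) : 𝓞 F₀) ∈ w.asIdeal →
    (w.asIdeal.ramificationIdx (𝓞 k)).Coprime 6

/-- the classes of the twists do not change -/
theorem scale_tw [DD] {D k : ℤ} (hk : k ≠ 0) (hD : D = k ^ 6 * DD.D) {N : Type} [Field N]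
    [CharZero N] {W : WeierstrassCurve N} (h : Tw D W) :
    (∃ C : VariableChange N, C • W = LF.crv ((DD.D : ℤ) : N)) ∨
      ∃ C : VariableChange N, C • W = LF.crv ((-27 * DD.D : ℤ) : N) := by
  rcases h with ⟨C, hC⟩ | ⟨C, hC⟩
  · exact Or.inl (scale_curve hk hD hC)
  · right
    have hk' : ((k : ℤ) : N)⁻¹ ≠ 0 := inv_ne_zero (Int.cast_ne_zero.2 hk)
    obtain ⟨C1, h1⟩ := LF.exists_scale ((-27 * D : ℤ) : N) _ hk'
    refine ⟨C1 * C, ?_⟩
    rw [mul_smul, hC]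
    change C1 • LF.crv ((-27 * D : ℤ) : N) = _
    rw [h1, hD]
    have hk0 : ((k : ℤ) : N) ≠ 0 := Int.cast_ne_zero.2 hk
    congr 1
    push_cast
    field_simp

section
variable {N₀ F₀ L₀ : Type} [Field N₀] [NumberField N₀] [Field F₀] [NumberField F₀]
  [Algebra K F₀] [Algebra N₀ F₀] [Field L₀] [NumberField L₀] [Algebra K L₀] [Algebra F₀ L₀]
  [IsScalarTower K F₀ L₀] [DecidableEq L₀]

/-- **Theorem G2** over the concrete field `K`. -/
theorem thmX_K {D : ℤ} (hD : D ≠ 0)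
    (hN : IntermediateField.adjoin N₀ (Set.range (algebraMap K F₀)) = ⊤) (x y : L₀)
    (hxy : (⟨0, 0, 0, 0, ((D : ℤ) : L₀)⟩ : WeierstrassCurve L₀).toAffine.Nonsingular x y)
    (ht : IsOfFinAddOrder (Affine.Point.some x y hxy))
    (hL₀ : IntermediateField.adjoin K {x, y} = ⊤)
    (hr : ¬ (finrank K F₀).Coprime 6 → RamSix D K F₀)
    (hg : ∃ g : ℂ → ℂ, Differentiable ℂ g ∧ (∀ s : ℂ, 3 / 2 < s.re →
      g s = (⟨0, 0, 0, 0, ((D : ℤ) : N₀)⟩ : WeierstrassCurve N₀).LSeries s) ∧ g 1 ≠ 0) :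
    ∃ S : Finset ℕ, ∀ ℓ : ℕ, ℓ.Prime → ℓ ∉ S → TowX ℓ D (finrank K F₀) F₀ := by
  obtain ⟨k, D', hk, hD', he, hfr⟩ := exists_free D hD
  let iD : DD := ⟨D', hD'⟩
  obtain ⟨f, p, hp⟩ := R.exists_HD D' hD'
  let iH : HC := ⟨f, p, hp⟩
  obtain ⟨T, n₀, hn₀, hT, hx, hy⟩ := scale_tors hk he x y hxy ht
  have hgen := scale_gen hk he hx hy hL₀
  obtain ⟨μ, hμ, hO⟩ := exists_ann hn₀ hT
  have hGal : IsGalois K L₀ := gal_of_gen hμ hO hgen
  have hAb : AbT μ K T := ⟨hμ, hO, eq_one_of_gen hgen⟩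
  have hcz : (6 * DD.D : ℤ) ∣ 6 * D := by
    rw [he]
    exact ⟨k ^ 6, by
      change 6 * (k ^ 6 * D') = 6 * D' * k ^ 6
      ring⟩
  have hnice : LF.Nice F₀ := by
    by_cases h6 : (finrank K F₀).Coprime 6
    · exact nice_ab hAb h6
    · refine nice_ram fun w hw => hr h6 w ?_
      exact w.asIdeal.mem_of_dvd (map_dvd (Int.castRingHom (𝓞 F₀)) hcz) hw
  obtain ⟨g, hg1, hg2, hg3⟩ := hg
  obtain ⟨C₀, hC₀⟩ := scale_curve hk he (F := N₀)
    (W := ⟨0, 0, 0, 0, ((D : ℤ) : N₀)⟩) (C := 1) (one_smul _ _)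
  have hgood := lgood_of_N₀ hN hnice hfr _ C₀ hC₀ hg1 hg2 hg3
  have hbase : BaseThm F₀ := DK.base_all hn₀ hT hgen hgood
  have hc : ((6 * D : ℤ) : 𝓞 K) ≠ 0 :=
    Int.cast_ne_zero.2 (mul_ne_zero (by norm_num) hD)
  have hcd : ((6 * DD.D : ℤ) : 𝓞 K) ∣ ((6 * D : ℤ) : 𝓞 K) :=
    map_dvd (Int.castRingHom (𝓞 K)) hcz
  obtain ⟨n, hn, H⟩ := goodEll_almost hAb hnice hgood hbase hc
  refine ⟨n.primeFactors, fun ℓ hℓ hS => ?_⟩
  have hdv : ¬ ℓ ∣ n := fun h => hS (Nat.mem_primeFactors.2 ⟨hℓ, h, hn⟩)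
  intro m N L M _ _ _ _ _ _ _ _ _ _ _ _ hM hL W C hC hW
  obtain ⟨C', hC'⟩ := scale_curve hk he hC
  have hR := scale_ram hk he hL
  exact ⟨concl_ell hAb hfr hcd (H ℓ hℓ hdv) N L M m hM hR W C' hC'
      fun h => scale_tw hk he (hW h),
    fun hF => PX.conclP_ell hAb hfr hcd (H ℓ hℓ hdv) N L M m hM hR W C' hC'
      fun h => scale_tw hk he (hW h)⟩

end

/-- The ramification indices over isomorphic fields. -/
theorem ramSix_equiv {D : ℤ} {K₀ K₁ F₀ : Type} [Field K₀] [NumberField K₀] [Field K₁]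
    [NumberField K₁] [Field F₀] [NumberField F₀] [Algebra K₀ F₀] [Algebra K₁ F₀]
    (e : K₁ →+* K₀) (f : K₀ →+* K₁) (hf : ∀ x, e (f x) = x)
    (he : ∀ x, algebraMap K₁ F₀ x = algebraMap K₀ F₀ (e x)) (h : RamSix D K₀ F₀) :
    RamSix D K₁ F₀ := by
  intro w hw
  refine Nat.Coprime.coprime_dvd_left ?_ (h w hw)
  let a : Algebra K₀ K₁ := f.toAlgebra
  have t : IsScalarTower K₀ K₁ F₀ := IsScalarTower.of_algebraMap_eq fun x => by
    change algebraMap K₀ F₀ x = algebraMap K₁ F₀ (f x)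
    rw [he, hf]
  have i1 : (w.under (𝓞 K₁)).asIdeal.IsPrime := (w.under (𝓞 K₁)).isPrime
  have i3 : w.asIdeal.LiesOver (w.under (𝓞 K₁)).asIdeal := ⟨rfl⟩
  exact Ideal.ramificationIdx_above_dvd (R := 𝓞 K₀) (w.under (𝓞 K₁)).asIdeal w.asIdeal

/-- **Theorem G2.** -/
theorem thmX (K₀ N₀ F₀ L₀ : Type) [Field K₀] [NumberField K₀]
    [IsCyclotomicExtension {3} ℚ K₀] [Field N₀] [NumberField N₀] [Field F₀] [NumberField F₀]
    [Field L₀] [NumberField L₀] [DecidableEq L₀] [Algebra K₀ F₀] [Algebra N₀ F₀]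
    [Algebra K₀ L₀] [Algebra F₀ L₀] [IsScalarTower K₀ F₀ L₀] (D : ℤ) (hD : D ≠ 0)
    (hN : IntermediateField.adjoin N₀ (Set.range (algebraMap K₀ F₀)) = ⊤) (x y : L₀)
    (hxy : (⟨0, 0, 0, 0, ((D : ℤ) : L₀)⟩ : WeierstrassCurve L₀).toAffine.Nonsingular x y)
    (ht : IsOfFinAddOrder (Affine.Point.some x y hxy))
    (hL₀ : IntermediateField.adjoin K₀ {x, y} = ⊤)
    (hr : ¬ (finrank K₀ F₀).Coprime 6 → RamSix D K₀ F₀)
    (hg : ∃ g : ℂ → ℂ, Differentiable ℂ g ∧ (∀ s : ℂ, 3 / 2 < s.re →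
      g s = (⟨0, 0, 0, 0, ((D : ℤ) : N₀)⟩ : WeierstrassCurve N₀).LSeries s) ∧ g 1 ≠ 0) :
    ∃ S : Finset ℕ, ∀ ℓ : ℕ, ℓ.Prime → ℓ ∉ S → TowX ℓ D (finrank K₀ F₀) F₀ := by
  have hζ := IsCyclotomicExtension.zeta_spec 3 ℚ K₀
  obtain ⟨w, hw⟩ : ∃ w : K₀, w = IsCyclotomicExtension.zeta 3 ℚ K₀ := ⟨_, rfl⟩
  have hw2 : w ^ 2 + w + 1 = 0 := by
    rw [hw]
    have h1 := hζ.isRoot_cyclotomic (by norm_num)
    rw [Polynomial.cyclotomic_three] at h1
    simpa [Polynomial.IsRoot] using h1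
  have hK : finrank ℚ K₀ = 2 := by
    rw [IsCyclotomicExtension.finrank (n := 3) K₀ (Polynomial.cyclotomic.irreducible_rat
      (by norm_num))]
    rfl
  obtain ⟨e, he⟩ := MP_1a91b9_ntT3.S8.exists_equiv hK hw2
  let aF : Algebra K F₀ := ((algebraMap K₀ F₀).comp e.toRingHom).toAlgebra
  let aL : Algebra K L₀ := ((algebraMap K₀ L₀).comp e.toRingHom).toAlgebra
  have hFe : ∀ x : K, algebraMap K F₀ x = algebraMap K₀ F₀ (e x) := fun x => rfl
  have hLe : ∀ x : K, algebraMap K L₀ x = algebraMap K₀ L₀ (e x) := fun x => rfl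
  have hst : IsScalarTower K F₀ L₀ := IsScalarTower.of_algebraMap_eq fun x => by
    rw [hLe, hFe]
    exact IsScalarTower.algebraMap_apply K₀ F₀ L₀ (e x)
  have hfin : finrank K F₀ = finrank K₀ F₀ := by
    have h1 := finrank_mul_finrank ℚ K F₀
    have h2 := finrank_mul_finrank ℚ K₀ F₀
    rw [S3.finrank_K] at h1
    rw [hK] at h2
    omega
  have hrange : Set.range (algebraMap K F₀) = Set.range (algebraMap K₀ F₀) := by
    ext z
    constructor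
    · rintro ⟨u, rfl⟩
      exact ⟨e u, rfl⟩
    · rintro ⟨u, rfl⟩
      exact ⟨e.symm u, by rw [hFe, RingEquiv.apply_symm_apply]⟩
  have hgen : IntermediateField.adjoin K {x, y} = (⊤ : IntermediateField K L₀) := by
    obtain ⟨A, hA⟩ : ∃ A : IntermediateField K L₀, A = IntermediateField.adjoin K {x, y} :=
      ⟨_, rfl⟩
    let B : IntermediateField K₀ L₀ := A.toSubfield.toIntermediateField fun z => by
      change algebraMap K₀ L₀ z ∈ A
      have h4 := A.algebraMap_mem (e.symm z)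
      rwa [hLe, RingEquiv.apply_symm_apply] at h4
    have hB : B = ⊤ := by
      rw [eq_top_iff, ← hL₀, IntermediateField.adjoin_le_iff]
      intro z hz
      change z ∈ A
      rw [hA]
      exact IntermediateField.subset_adjoin K {x, y} hz
    rw [← hA, eq_top_iff]
    intro z _
    have h4 : z ∈ B := by
      rw [hB]
      exact IntermediateField.mem_top
    exact h4
  have key := thmX_K hD (by rw [hrange]; exact hN) x y hxy ht hgen (fun h => by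
    rw [hfin] at h
    exact ramSix_equiv (K₀ := K₀) (K₁ := K) e.toRingHom e.symm.toRingHom
      (fun x => e.apply_symm_apply x) hFe (hr h)) hg
  rwa [hfin] at key

end Pool.Agent.Lib.MP_1a91b9_ntX.TG
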