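import Pool.Agent.Lib.MP_1a91b9_ntX.TG.Top
import Pool.Agent.Lib.MP_1a91b9_ntX.LF.CntB
import Pool.Agent.Lib.MP_1a91b9_nt.VcPoint
import Pool.Agent.Lib.MP_1a91b9_ntX.DB.Defs

/-!
# Reduction to `D` without sixth powers
-/

set_option autoImplicit false

namespace Pool.Agent.Lib.MP_1a91b9_ntX.TG

open NumberField IsDedekindDomain Module WeierstrassCurve Pool.Agent.Lib.MP_1a91b9_ntT
open Pool.Agent.Lib.MP_1a91b9_nt
open Pool.Agent.Lib.MP_1a91b9_ntX.DB
open Pool.Agent.Lib.MP_1a91b9_ntX.LF (crv crv_map exists_scale card_crv_scale)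

/-- Every nonzero integer is a sixth power times an integer without sixth powers. -/
theorem exists_free (D : ℤ) (hD : D ≠ 0) :
    ∃ k D' : ℤ, k ≠ 0 ∧ D' ≠ 0 ∧ D = k ^ 6 * D' ∧ LF.Free6 D' := by
  obtain ⟨m, hm⟩ : ∃ m : ℕ, m = D.natAbs := ⟨_, rfl⟩
  induction m using Nat.strong_induction_on generalizing D with
  | _ m ih =>
    by_cases h : LF.Free6 D
    · exact ⟨1, D, one_ne_zero, hD, by ring, h⟩
    · unfold LF.Free6 at h
      push Not at h
      obtain ⟨p, hp, -, D1, hD1⟩ := h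
      have h0 : D1 ≠ 0 := by
        rintro rfl
        exact hD (by rw [hD1, mul_zero])
      have hlt : D1.natAbs < m := by
        rw [hm, hD1, Int.natAbs_mul, Int.natAbs_pow, Int.natAbs_natCast]
        have h1 : 0 < D1.natAbs := Int.natAbs_pos.2 h0
        have h2 : 1 < p ^ 6 := Nat.one_lt_pow (by norm_num) hp.one_lt
        exact lt_mul_of_one_lt_left h1 h2
      obtain ⟨k, D', hk, hD', he, hf⟩ := ih _ hlt D1 h0 rfl
      refine ⟨p * k, D', mul_ne_zero (by exact_mod_cast hp.ne_zero) hk, hD', ?_, hf⟩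
      rw [hD1, he]
      ring

/-- transport of the order of a point -/
theorem nsmul_transport {F : Type*} [Field F] [DecidableEq F] {W W' : WeierstrassCurve F}
    (e : W = W') (x y : F) (h : W.toAffine.Nonsingular x y) (h' : W'.toAffine.Nonsingular x y)
    {n : ℕ} (hf : n • Affine.Point.some x y h = 0) :
    n • Affine.Point.some x y h' = 0 := by
  subst e
  exact hf

section
variable [DD] {D k : ℤ} (hk : k ≠ 0) (hD : D = k ^ 6 * DD.D)
include hk hD

theorem scale_field (F : Type*) [Field F] [CharZero F] :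
    ∃ C : VariableChange F, C • (⟨0, 0, 0, 0, ((D : ℤ) : F)⟩ : WeierstrassCurve F) =
      crv ((DD.D : ℤ) : F) ∧ (C.u : F) = k ∧ C.r = 0 ∧ C.s = 0 ∧ C.t = 0 := by
  have hk' : ((k : ℤ) : F) ≠ 0 := Int.cast_ne_zero.2 hk
  refine ⟨⟨Units.mk0 (k : F) hk', 0, 0, 0⟩, ?_, rfl, rfl, rfl, rfl⟩
  have h1 : ((Units.mk0 (k : F) hk')⁻¹ : Fˣ) = ((k : ℤ) : F)⁻¹ := by simp
  ext
  · simp [crv, WeierstrassCurve.variableChange_a₁]
  · simp [crv, WeierstrassCurve.variableChange_a₂]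
  · simp [crv, WeierstrassCurve.variableChange_a₃]
  · simp [crv, WeierstrassCurve.variableChange_a₄]
  · simp only [crv, WeierstrassCurve.variableChange_a₆]
    rw [h1, hD]
    push_cast
    field_simp
    ring

/-- the curve becomes the curve with the integer without sixth powers -/
theorem scale_curve {F : Type*} [Field F] [CharZero F] {W : WeierstrassCurve F}
    {C : VariableChange F} (hC : C • W = ⟨0, 0, 0, 0, ((D : ℤ) : F)⟩) :
    ∃ C' : VariableChange F, C' • W = crv ((DD.D : ℤ) : F) := by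
  obtain ⟨C1, h1, -⟩ := scale_field hk hD F
  exact ⟨C1 * C, by rw [mul_smul, hC, h1]⟩

/-- transport of a torsion point -/
theorem scale_tors {L : Type*} [Field L] [Algebra K L] [DecidableEq L] (x y : L)
    (hxy : (⟨0, 0, 0, 0, ((D : ℤ) : L)⟩ : WeierstrassCurve L).toAffine.Nonsingular x y)
    (ht : IsOfFinAddOrder (Affine.Point.some x y hxy)) :
    ∃ (T : Pt L) (n : ℕ), n ≠ 0 ∧ n • T = 0 ∧ x = (k : L) ^ 2 * xc T ∧
      y = (k : L) ^ 3 * yc T := by
  have hcz : CharZero L := charZero_of_injective_algebraMap (algebraMap K L).injective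
  have hk' : ((k : ℤ) : L) ≠ 0 := Int.cast_ne_zero.2 hk
  obtain ⟨C, hC, hu, hr, hs, htt⟩ := scale_field hk hD L
  obtain ⟨e, he⟩ := exists_point_equiv (⟨0, 0, 0, 0, ((D : ℤ) : L)⟩ : WeierstrassCurve L) C
  obtain ⟨x', hx'⟩ : ∃ x' : L, x' = x / (k : L) ^ 2 := ⟨_, rfl⟩
  obtain ⟨y', hy'⟩ : ∃ y' : L, y' = y / (k : L) ^ 3 := ⟨_, rfl⟩
  have hx : x = (k : L) ^ 2 * x' := by
    rw [hx']
    field_simp
  have hy : y = (k : L) ^ 3 * y' := by
    rw [hy']
    field_simp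
  have heq : y' ^ 2 = x' ^ 3 + dD L := by
    have h4 := hxy.1
    rw [Affine.equation_iff] at h4
    have h5 : y ^ 2 = x ^ 3 + ((D : ℤ) : L) := by simpa using h4
    rw [hx, hy, hD] at h5
    push_cast at h5
    have h6 : (k : L) ^ 6 * y' ^ 2 = (k : L) ^ 6 * (x' ^ 3 + dD L) := by linear_combination h5
    exact mul_left_cancel₀ (pow_ne_zero 6 hk') h6
  have hE : C • (⟨0, 0, 0, 0, ((D : ℤ) : L)⟩ : WeierstrassCurve L) = (E K).baseChange L := by
    rw [hC]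
    exact (by
      rw [E, WeierstrassCurve.baseChange]
      exact (crv_map (algebraMap K L) ((DD.D : ℤ) : K)).trans (by rw [map_intCast]) :
        (E K).baseChange L = crv ((DD.D : ℤ) : L)).symm
  have hns : (C • (⟨0, 0, 0, 0, ((D : ℤ) : L)⟩ : WeierstrassCurve L)).toAffine.Nonsingular
      x' y' := by
    rw [hE]
    exact (nons_iff x' y').2 heq
  obtain ⟨h', h2⟩ := he x' y' hns
  obtain ⟨n, hn, hT⟩ := isOfFinAddOrder_iff_nsmul_eq_zero.1 ht
  have h3 : e (Affine.Point.some x' y' hns) = Affine.Point.some x y hxy := by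
    rw [h2, Affine.Point.some.injEq]
    rw [hr, hs, htt, hu, hx, hy]
    exact ⟨by ring, by ring⟩
  have h4 : n • Affine.Point.some x' y' hns = 0 := by
    apply e.injective
    rw [map_nsmul, h3, hT, map_zero]
  exact ⟨mkPt x' y' heq, n, hn.ne',
    nsmul_transport hE x' y' hns ((nons_iff x' y').2 heq) h4, hx, hy⟩

/-- the field generated by the coordinates does not change -/
theorem scale_gen {L : Type*} [Field L] [Algebra K L] {x y x' y' : L}
    (hx : x = (k : L) ^ 2 * x') (hy : y = (k : L) ^ 3 * y')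
    (hgen : IntermediateField.adjoin K {x, y} = ⊤) :
    IntermediateField.adjoin K {x', y'} = (⊤ : IntermediateField K L) := by
  rw [eq_top_iff, ← hgen, IntermediateField.adjoin_le_iff]
  have h1 : x' ∈ IntermediateField.adjoin K {x', y'} :=
    IntermediateField.subset_adjoin K _ (Or.inl rfl)
  have h2 : y' ∈ IntermediateField.adjoin K {x', y'} :=
    IntermediateField.subset_adjoin K _ (Or.inr rfl)
  have h3 : (k : L) ∈ IntermediateField.adjoin K {x', y'} := intCast_mem _ k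
  rintro z (rfl | rfl)
  · rw [hx]
    exact mul_mem (pow_mem h3 2) h1
  · rw [hy]
    exact mul_mem (pow_mem h3 3) h2

/-- the numbers of points of the reductions are the same -/
theorem scale_card {F : Type} [Field F] [NumberField F] (v : HeightOneSpectrum (𝓞 F))
    (h6 : ((6 * D : ℤ) : 𝓞 F) ∉ v.asIdeal) :
    Nat.card (⟨0, 0, 0, 0, ((D : ℤ) : 𝓞 F ⧸ v.asIdeal)⟩ :
        WeierstrassCurve (𝓞 F ⧸ v.asIdeal)).toAffine.Point =
      Nat.card (⟨0, 0, 0, 0, ((DD.D : ℤ) : 𝓞 F ⧸ v.asIdeal)⟩ :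
        WeierstrassCurve (𝓞 F ⧸ v.asIdeal)).toAffine.Point := by
  have hm : v.asIdeal.IsMaximal := v.isMaximal
  letI : Field (𝓞 F ⧸ v.asIdeal) := Ideal.Quotient.field _
  have hkv : ((k : ℤ) : 𝓞 F ⧸ v.asIdeal) ≠ 0 := by
    intro h0
    have h1 : ((k : ℤ) : 𝓞 F) ∈ v.asIdeal := by
      rw [← Ideal.Quotient.eq_zero_iff_mem, map_intCast]
      exact h0
    apply h6
    rw [hD]
    have h2 : ((6 * (k ^ 6 * DD.D) : ℤ) : 𝓞 F) = (6 * (k : 𝓞 F) ^ 5 * (DD.D : 𝓞 F)) * k := by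
      push_cast
      ring
    rw [h2]
    exact v.asIdeal.mul_mem_left _ h1
  have h1 := card_crv_scale ((DD.D : ℤ) : 𝓞 F ⧸ v.asIdeal) ((k : ℤ) : 𝓞 F ⧸ v.asIdeal) hkv
  have h2 : ((k : ℤ) : 𝓞 F ⧸ v.asIdeal) ^ 6 * ((DD.D : ℤ) : 𝓞 F ⧸ v.asIdeal) =
      ((D : ℤ) : 𝓞 F ⧸ v.asIdeal) := by
    rw [hD]
    push_cast
    ring
  rw [h2] at h1
  exact h1

/-- the ramification condition -/
theorem scale_ram {ℓ : ℕ} {F₀ L : Type} [Field F₀] [NumberField F₀] [Algebra K F₀]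
    [Field L] [NumberField L] [Algebra F₀ L]
    (h : ∀ (v : HeightOneSpectrum (𝓞 F₀)) (w : HeightOneSpectrum (𝓞 L)),
      v.asIdeal.map (algebraMap (𝓞 F₀) (𝓞 L)) ≤ w.asIdeal ^ 2 →
        (ℓ : 𝓞 F₀) ∉ v.asIdeal ∧ (((6 * D : ℤ) : 𝓞 F₀) ∉ v.asIdeal →
          ¬ ℓ ∣ Nat.card (⟨0, 0, 0, 0, ((D : ℤ) : 𝓞 F₀ ⧸ v.asIdeal)⟩ :
            WeierstrassCurve (𝓞 F₀ ⧸ v.asIdeal)).toAffine.Point)) :
    RamC ℓ DD.D ((6 * D : ℤ) : 𝓞 K) F₀ L := by
  intro v w hw
  obtain ⟨h1, h2⟩ := h v w hw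
  refine ⟨h1, fun h3 => ?_⟩
  have h4 : ((6 * D : ℤ) : 𝓞 F₀) ∉ v.asIdeal := by
    have h5 : MP_1a91b9_ntG.up ((6 * D : ℤ) : 𝓞 K) F₀ = ((6 * D : ℤ) : 𝓞 F₀) :=
      map_intCast (algebraMap (𝓞 K) (𝓞 F₀)) _
    rwa [h5] at h3
  rw [← scale_card hk hD v h4]
  exact h2 h4

end

end Pool.Agent.Lib.MP_1a91b9_ntX.TG
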