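import Pool.Agent.Lib.MP_1a91b9_ntX.TG.Udesc
import Pool.Agent.Lib.MP_1a91b9_ntX.TG.Inter
import Pool.Agent.Lib.MP_1a91b9_ntX.TG.Analytic
import Pool.Agent.Lib.MP_1a91b9_ntT.TG.Unr

/-!
# The field of a torsion point is unramified outside of the annihilator and the bad places; descent
of the unit property (curves `y² = x³ + D`)

Port of MP_1a91b9_ntT/TG/Unr.lean.
-/

set_option autoImplicit false

namespace Pool.Agent.Lib.MP_1a91b9_ntX.TG

open NumberField IsDedekindDomain WeierstrassCurve Module Pool.Agent.Lib.MP_1a91b9_ntT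
open Pool.Agent.Lib.MP_1a91b9_ntX.DB Pool.Agent.Lib.MP_1a91b9_ntX.DX
open Pool.Agent.Lib.MP_1a91b9_nt (nrm nrm_eq)
open Pool.Agent.Lib.MP_1a91b9_ntG (Ram ram_eq ValueProp)
open Pool.Agent.Lib.MP_1a91b9_ntT.S5 (below mem_below exists_above below_below)
open Pool.Agent.Lib.MP_1a91b9_ntT.CF (IsFr exists_over)
open Pool.Agent.Lib.MP_1a91b9_ntX.AN
open Pool.Agent.Lib.MP_1a91b9_ntT.TG (RayData not_ram_down)

universe u

variable [DD] [HC]

section
variable {μ : 𝓞 K} {N L : Type u} [Field N] [NumberField N] [Algebra K N] [Field L]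
  [NumberField L] [Algebra K L] [Algebra N L] [IsScalarTower K N L] [DecidableEq L]
  [IsGalois N L] {T : Pt L}

/-- the inertia groups are trivial outside of the modulus -/
theorem AbT.inert (hT : AbT μ N T) (W : HeightOneSpectrum (𝓞 L))
    (hv : ∀ c : 𝓞 K, c ∣ gB μ → algebraMap (𝓞 K) (𝓞 N) c ∉ (W.under (𝓞 N)).asIdeal)
    (σ : Gal(L/N))
    (hσ : ∀ x : 𝓞 L, σ • x - x ∈ W.asIdeal) : σ = 1 := by
  obtain ⟨φ, hφ⟩ := CF.exists_fr (k := N) W
  have h3 : ((6 * DD.D : ℤ) : 𝓞 L) ∉ W.asIdeal := by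
    intro h
    apply hv _ (six_dvd_gB μ)
    rw [map_intCast]
    change algebraMap (𝓞 N) (𝓞 L) _ ∈ W.asIdeal
    rwa [map_intCast]
  have h4 : ((nAb μ : ℕ) : 𝓞 L) ∉ W.asIdeal := by
    intro h
    apply hv _ (nAb_dvd_gB μ)
    rw [map_natCast]
    change algebraMap (𝓞 N) (𝓞 L) _ ∈ W.asIdeal
    rwa [map_natCast]
  have h5 := frob_psi (k := N) W (val_six_of_not_mem W h3) φ (fun x => by
    rw [← nrm_eq]
    exact hφ x) (val_one_of_not_mem W _ h4) (nsmul_nAb hT.ord)
  have h6 := frob_psi (k := N) W (val_six_of_not_mem W h3) (φ * σ)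
    (fun x => by
      rw [← nrm_eq, mul_smul]
      have e1 := hφ (σ • x)
      have e2 : (σ • x) ^ nrm (W.under (𝓞 N)) - x ^ nrm (W.under (𝓞 N)) ∈ W.asIdeal :=
        W.asIdeal.mem_of_dvd (sub_dvd_pow_sub_pow _ _ _) (hσ x)
      have e3 := W.asIdeal.add_mem e1 e2
      rwa [sub_add_sub_cancel] at e3) (val_one_of_not_mem W _ h4)
    (nsmul_nAb hT.ord)
  rw [← h5, ga_mul] at h6
  apply hT.gen
  have h7 := congrArg (ga φ⁻¹) h6
  rw [← ga_mul, ← ga_mul, ← ga_mul, inv_mul_cancel, one_mul, ga_one] at h7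
  exact h7

/-- no ramification outside of the modulus -/
theorem AbT.not_ram (hT : AbT μ N T) (v : HeightOneSpectrum (𝓞 N))
    (hv : MP_1a91b9_ntG.up (gB μ) N ∉ v.asIdeal) : ¬ MP_1a91b9_ntG.Ram L v := by
  rw [ram_eq]
  obtain ⟨W, rfl⟩ := exists_over (N := L) v
  have h1 : W.asIdeal.inertia Gal(L/N) = ⊥ := by
    rw [eq_bot_iff]
    intro σ hσ
    rw [Subgroup.mem_bot]
    exact hT.inert W (fun c hc h => hv
      ((W.under (𝓞 N)).asIdeal.mem_of_dvd (map_dvd (algebraMap (𝓞 K) (𝓞 N)) hc) h)) σ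
      (fun x => hσ x)
  have hp0 : W.asIdeal.under (𝓞 N) ≠ ⊥ := (W.under (𝓞 N)).ne_bot
  have hfin : Finite (𝓞 N ⧸ W.asIdeal.under (𝓞 N)) :=
    Ideal.finiteQuotientOfFreeOfNeBot _ hp0
  have h2 := Ideal.card_inertia_eq_ramificationIdxIn (G := Gal(L/N)) (W.asIdeal.under (𝓞 N))
    W.asIdeal
  intro h3
  apply h3
  change Ideal.ramificationIdxIn (W.asIdeal.under (𝓞 N)) (𝓞 L) = 1
  rw [← h2, h1]
  exact Nat.card_unique

end

/-- The places above `6 D μ` are not anomalous. -/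
def NaG (ℓ : ℕ) (μ : 𝓞 K) (F : Type*) [Field F] [NumberField F] [Algebra K F] : Prop :=
  ∀ v : HeightOneSpectrum (𝓞 F), MP_1a91b9_ntG.up (gB μ) F ∈ v.asIdeal →
    MP_1a91b9_ntG.up HC.f F ∉ v.asIdeal → IsCoprime (psi F v.asIdeal - 1) (ℓ : 𝓞 K)

theorem up_mem_below {N F : Type*} [Field N] [NumberField N] [Algebra K N] [Field F]
    [NumberField F] [Algebra K F] [Algebra N F] [IsScalarTower K N F]
    (w : HeightOneSpectrum (𝓞 F)) (c : 𝓞 K) :
    MP_1a91b9_ntG.up c N ∈ (below N w).asIdeal ↔ MP_1a91b9_ntG.up c F ∈ w.asIdeal := by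
  rw [mem_below]
  have h : algebraMap (𝓞 N) (𝓞 F) (MP_1a91b9_ntG.up c N) = MP_1a91b9_ntG.up c F :=
    MP_1a91b9_ntT3.S8.algebraMap_tower (F := N) (F' := F) c
  rw [h]

section
variable {N F : Type*} [Field N] [NumberField N] [Algebra K N] [Field F] [NumberField F]
  [Algebra K F] [Algebra N F] [IsScalarTower K N F]

/-- the coprimality goes down -/
theorem cop_down {ℓ : ℕ} (w : HeightOneSpectrum (𝓞 F))
    (h : IsCoprime (psi F w.asIdeal - 1) (ℓ : 𝓞 K)) :
    IsCoprime (psi N (below N w).asIdeal - 1) (ℓ : 𝓞 K) := by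
  rw [psi_up (F := N) w] at h
  refine IsCoprime.of_isCoprime_of_dvd_left h ?_
  have h1 := sub_dvd_pow_sub_pow (psi N (below N w).asIdeal) 1 (w.asIdeal.inertiaDeg (𝓞 N))
  rwa [one_pow] at h1

theorem NaG.down {ℓ : ℕ} {μ : 𝓞 K} (h : NaG ℓ μ F) : NaG ℓ μ N := by
  intro v hv h3
  obtain ⟨w, rfl⟩ := exists_above N F v
  refine cop_down w (h w ?_ ?_)
  · rwa [up_mem_below] at hv
  · rwa [up_mem_below] at h3

end

/-- The values of the partial series over a field which is unramified above `ℓ`. -/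
theorem valueProp_unr {ℓ : ℕ} (hℓ : ℓ.Prime) (hD : ¬ (ℓ : ℤ) ∣ 6 * DD.D) (F : Type u) [Field F]
    [NumberField F] [Algebra K F] (h3 : ¬ ℓ ∣ 2 ^ finrank K F - 1)
    (hu : ∀ q : HeightOneSpectrum (𝓞 K), (ℓ : 𝓞 K) ∈ q.asIdeal → ¬ MP_1a91b9_ntT3.Ram F q) :
    ValueProp HC.f ℓ Om F := by
  exact valueProp_e2 hℓ (five_le hℓ hD) F h3 (MP_1a91b9_ntT3.S8.uq_of_unram ℓ hℓ F hu)

section
variable {μ : 𝓞 K} {N N₁ L : Type u} [Field N] [NumberField N] [Algebra K N] [Field N₁]
  [NumberField N₁] [Algebra K N₁] [Field L] [NumberField L] [Algebra K L] [Algebra N N₁]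
  [Algebra N L] [Algebra N₁ L] [IsScalarTower K N N₁] [IsScalarTower K N L]
  [IsScalarTower K N₁ L] [IsScalarTower N N₁ L] [DecidableEq L]
  {T : Pt L}

/-- descent in a step of prime degree -/
theorem unit_step [IsGalois N N₁] [IsGalois N L] (hT : AbT μ N T) {p : ℕ} (hp : p.Prime)
    (hd : finrank N N₁ = p) {ℓ : ℕ} (hℓ : ℓ.Prime) (hD : ¬ (ℓ : ℤ) ∣ 6 * DD.D)
    (hμ : ¬ ℓ ∣ nAb μ)
    (h3 : ¬ ℓ ∣ 2 ^ finrank K N - 1)
    (hu : ∀ q : HeightOneSpectrum (𝓞 K), (ℓ : 𝓞 K) ∈ q.asIdeal → ¬ MP_1a91b9_ntT3.Ram N q)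
    (hna : NaG ℓ μ N₁) (h : UnitProp ℓ Om N₁) : UnitProp ℓ Om N := by
  have hfp : Fact p.Prime := ⟨hp⟩
  obtain ⟨c, hc⟩ : ∃ c : 𝓞 N, c = MP_1a91b9_ntG.up (gB μ) N := ⟨_, rfl⟩
  have hc0 : c ≠ 0 := by
    rw [hc]
    intro h0
    exact gB_ne hT.ne ((FaithfulSMul.algebraMap_injective (𝓞 K) (𝓞 N)) (by rw [map_zero]; exact h0))
  have hcu : ¬ IsUnit c := by
    intro hu
    rw [hc] at hu
    apply up_span_ne_top (F := N)
    rw [Ideal.one_eq_top, Ideal.span_singleton_eq_top]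
    exact isUnit_of_dvd_unit (map_dvd (algebraMap (𝓞 K) (𝓞 N)) (f_dvd_gB μ)) hu
  have hm0 : Ideal.span {c} ≠ (0 : Ideal (𝓞 N)) := by
    rw [Ne, Ideal.zero_eq_bot, Ideal.span_singleton_eq_bot]
    exact hc0
  have hm1 : Ideal.span {c} ≠ (1 : Ideal (𝓞 N)) := by
    rw [Ne, Ideal.one_eq_top, Ideal.span_singleton_eq_top]
    exact hcu
  have hram : ∀ v : HeightOneSpectrum (𝓞 N), MP_1a91b9_ntG.Ram N₁ v →
      Ideal.span {c} ≤ v.asIdeal := by
    intro v hv
    rw [Ideal.span_singleton_le_iff_mem]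
    by_contra h1
    rw [hc] at h1
    exact hT.not_ram v h1 (MP_1a91b9_ntT3.S8.ram_up v hv)
  have hm3 : Ideal.span {c} ≤ Ideal.span {MP_1a91b9_ntG.up HC.f N} := by
    rw [Ideal.span_singleton_le_span_singleton, hc]
    exact map_dvd (algebraMap (𝓞 K) (𝓞 N)) (f_dvd_gB μ)
  have hmq : IsCoprime (Ideal.span {c}) (Ideal.span {(ℓ : 𝓞 N)}) := by
    rw [Ideal.isCoprime_span_singleton_iff, hc]
    have h1 : IsCoprime (gB μ) (ℓ : 𝓞 K) := by
      refine (f_coprime hℓ hD).mul_left (IsCoprime.mul_left ?_ ?_)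
      · have h2 : IsCoprime (6 * DD.D) (ℓ : ℤ) :=
          ((Prime.coprime_iff_not_dvd (Nat.prime_iff_prime_int.1 hℓ)).2 hD).symm
        have h3 := h2.map (Int.castRingHom (𝓞 K))
        rwa [eq_intCast, eq_intCast, Int.cast_natCast] at h3
      · exact Nat.Coprime.cast (((Nat.Prime.coprime_iff_not_dvd hℓ).2 hμ).symm)
    have h2 := h1.map (algebraMap (𝓞 K) (𝓞 N))
    rwa [map_natCast] at h2
  obtain ⟨x, hx⟩ := hT.exists_rayData (N₁ := N₁) (m := Ideal.span {c}) (by rw [hc]) hd hm1 hram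
  refine unit_desc hd hm0 hm1 hm3 hx hℓ (f_coprime hℓ hD) hmq
    (valueProp_unr hℓ hD N h3 hu) ?_ ?_ h
  · intro v hv h1
    rw [Ideal.span_singleton_le_iff_mem, hc] at hv
    exact hna.down v hv h1
  · intro w hw h1
    refine hna w ?_ h1
    rw [Ideal.map_span, Set.image_singleton, Ideal.span_singleton_le_iff_mem, hc] at hw
    have h : algebraMap (𝓞 N) (𝓞 N₁) (MP_1a91b9_ntG.up (gB μ) N) = MP_1a91b9_ntG.up (gB μ) N₁ :=
      MP_1a91b9_ntT3.S8.algebraMap_tower (F := N) (F' := N₁) (gB μ)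
    rwa [h] at hw

end

/-- **Descent of the unit property** in the extensions generated by torsion points. -/
theorem unit_abT (μ : 𝓞 K) {ℓ : ℕ} (hℓ : ℓ.Prime) (hD : ¬ (ℓ : ℤ) ∣ 6 * DD.D)
    (hμ : ¬ ℓ ∣ nAb μ) (d : ℕ) :
    ∀ (N F L : Type u) [Field N] [NumberField N] [Algebra K N]
    [Field F] [NumberField F] [Algebra K F] [Field L] [NumberField L] [Algebra K L]
    [Algebra N F] [Algebra N L] [Algebra F L] [IsScalarTower K N F] [IsScalarTower K N L]
    [IsScalarTower K F L] [IsScalarTower N F L] [DecidableEq L] [IsGalois N L] (T : Pt L)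
    (_ : AbT μ N T), finrank N F = d → ¬ ℓ ∣ 2 ^ finrank K F - 1 →
    (∀ q : HeightOneSpectrum (𝓞 K), (ℓ : 𝓞 K) ∈ q.asIdeal → ¬ MP_1a91b9_ntT3.Ram F q) →
    NaG ℓ μ F → UnitProp ℓ Om F → UnitProp ℓ Om N := by
  induction d using Nat.strong_induction_on with
  | _ d ih =>
    intro N F L _ _ _ _ _ _ _ _ _ _ _ _ _ _ _ _ _ _ T hT hd h3 hu hna hF
    have hfd : FiniteDimensional N L := Module.Finite.of_restrictScalars_finite ℚ N L
    have hfd' : FiniteDimensional N F := Module.Finite.of_restrictScalars_finite ℚ N F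
    -- the extension `F / N` is Galois
    have hG : IsGalois N F := by
      let f : F →ₐ[N] L := IsScalarTower.toAlgHom N F L
      let e : F ≃ₐ[N] f.fieldRange := AlgEquiv.ofInjectiveField f
      have hn : f.fieldRange.fixingSubgroup.Normal := ⟨fun σ hσ τ => by
        rw [hT.comm τ σ, mul_inv_cancel_right]
        exact hσ⟩
      have h1 : IsGalois N (IntermediateField.fixedField f.fieldRange.fixingSubgroup) :=
        IsGalois.of_fixedField_normal_subgroup _
      rw [IsGalois.fixedField_fixingSubgroup] at h1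
      exact IsGalois.of_algEquiv e.symm
    by_cases hd1 : d = 1
    · exact unit_one (by rw [hd, hd1]) hF
    · obtain ⟨p, hp, hpd⟩ := Nat.exists_prime_and_dvd hd1
      have hfp : Fact p.Prime := ⟨hp⟩
      have hcardG : Nat.card Gal(F/N) = d := by rw [IsGalois.card_aut_eq_finrank, hd]
      obtain ⟨σ, hσ⟩ := exists_prime_orderOf_dvd_card' (G := Gal(F/N)) p (by rw [hcardG]; exact hpd)
      obtain ⟨M, hM⟩ : ∃ M : IntermediateField N F,
          M = IntermediateField.fixedField (Subgroup.zpowers σ) := ⟨_, rfl⟩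
      have hpM : finrank M F = p := by
        rw [hM, IntermediateField.finrank_fixedField_eq_card, Nat.card_zpowers, hσ]
      have hmul : finrank N M * p = d := by
        rw [← hpM, Module.finrank_mul_finrank, hd]
      have hpos : 0 < finrank N M := finrank_pos
      have hlt : finrank N M < d := by
        rw [← hmul]
        exact lt_mul_of_one_lt_right hpos hp.one_lt
      have t1 : IsScalarTower M F L := inferInstance
      have t2 : IsScalarTower N M L := IsScalarTower.of_algebraMap_eq fun x => by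
        rw [IsScalarTower.algebraMap_apply N F L]
        rfl
      have t3 : IsScalarTower K M F := IsScalarTower.of_algebraMap_eq fun x => rfl
      have t4 : IsScalarTower K M L := IsScalarTower.of_algebraMap_eq fun x => by
        rw [IsScalarTower.algebraMap_apply K F L]
        rfl
      have t5 : IsScalarTower K N M := IsScalarTower.of_algebraMap_eq fun x => by
        apply (algebraMap M F).injective
        rw [← IsScalarTower.algebraMap_apply K M F, ← IsScalarTower.algebraMap_apply N M F,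
          ← IsScalarTower.algebraMap_apply K N F]
      have g1 : IsGalois M F := IsGalois.tower_top_of_isGalois N M F
      have g2 : IsGalois M L := IsGalois.tower_top_of_isGalois N M L
      have hT' : AbT μ M T := ⟨hT.ne, hT.ord, fun τ hτ => by
        have h1 := hT.gen (toF N τ) hτ
        apply AlgEquiv.ext
        intro y
        rw [← toF_apply (F := N) τ y, h1]
        rfl⟩
      have h3M : ¬ ℓ ∣ 2 ^ finrank K M - 1 := e2_down h3
      have huM := not_ram_down (N := M) hu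
      have hnM : NaG ℓ μ M := hna.down
      have hMg : UnitProp ℓ Om M := unit_step hT' hp hpM hℓ hD hμ h3M huM hna hF
      exact ih (finrank N M) hlt N M L T hT rfl h3M huM hnM hMg

end Pool.Agent.Lib.MP_1a91b9_ntX.TG
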