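import Pool.Agent.Lib.MP_1a91b9_ntX.TG.Sub
import Pool.Agent.Lib.MP_1a91b9_ntX.TG.Unr

/-!
# Descent of the unit property from `N F₀` to `N`; isomorphic fields (curves `y² = x³ + D`)
-/

set_option autoImplicit false

namespace Pool.Agent.Lib.MP_1a91b9_ntX.TG

open NumberField IsDedekindDomain WeierstrassCurve Module Pool.Agent.Lib.MP_1a91b9_ntT
open Pool.Agent.Lib.MP_1a91b9_ntX.DB Pool.Agent.Lib.MP_1a91b9_ntX.DX
open Pool.Agent.Lib.MP_1a91b9_ntT.TG (exists_comp)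

variable [DD] [HC]

/-- If `F₀` is contained in the field `L'` generated over `K` by a torsion point, the unit property
descends from `F = N F₀` to `N`. -/
theorem unit_sub {μ : 𝓞 K} {ℓ : ℕ} (hℓ : ℓ.Prime) (hD : ¬ (ℓ : ℤ) ∣ 6 * DD.D)
    (hμ : ¬ ℓ ∣ nAb μ)
    (N F F₀ L' : Type) [Field N] [NumberField N] [Algebra K N] [Field F]
    [NumberField F] [Algebra K F] [Field F₀] [NumberField F₀] [Algebra K F₀] [Field L']
    [NumberField L'] [Algebra K L'] [Algebra N F] [Algebra F₀ F] [Algebra F₀ L']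
    [IsScalarTower K N F] [IsScalarTower K F₀ F] [IsScalarTower K F₀ L'] [IsGalois K L']
    [DecidableEq L'] {T : Pt L'} (hT : AbT μ K T)
    (hgen : IntermediateField.adjoin N (Set.range (algebraMap F₀ F)) = ⊤)
    (h3 : ¬ ℓ ∣ 2 ^ finrank K F - 1)
    (hu : ∀ q : HeightOneSpectrum (𝓞 K), (ℓ : 𝓞 K) ∈ q.asIdeal → ¬ MP_1a91b9_ntT3.Ram F q)
    (hna : NaG ℓ μ F) (h : AN.UnitProp ℓ Om F) : AN.UnitProp ℓ Om N := by
  classical
  obtain ⟨L, _, _, _, _, _, _, t1, t2, t3, t4, hG, hL⟩ := exists_comp N F F₀ L' hgen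
  exact unit_abT μ hℓ hD hμ _ N F L (DX.up L T) (hT.up hL) rfl h3 hu hna h

section
variable {F₀ F : Type} [Field F₀] [NumberField F₀] [Algebra K F₀] [Field F] [NumberField F]
  [Algebra K F] (e : F₀ ≃ₐ[K] F)
include e

theorem unitProp_iso {ℓ : ℕ} {Ω : ℂ} (h : AN.UnitProp ℓ Ω F₀) : AN.UnitProp ℓ Ω F := by
  let alg : Algebra F F₀ := (e.symm : F →+* F₀).toAlgebra
  have hst : IsScalarTower K F F₀ := IsScalarTower.of_algebraMap_eq fun x =>
    (e.symm.commutes x).symm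
  have hb : Function.Bijective (algebraMap F F₀) := e.symm.bijective
  have hG : IsGalois F F₀ := IsGalois.of_algEquiv (AlgEquiv.ofBijective (Algebra.ofId F F₀) hb)
  have h1 : finrank F F₀ = 1 :=
    (LinearEquiv.ofBijective (Algebra.linearMap F F₀) hb).finrank_eq.symm.trans (finrank_self F)
  exact unit_one h1 h

theorem NaG.iso {ℓ : ℕ} {μ : 𝓞 K} (h : NaG ℓ μ F₀) : NaG ℓ μ F := by
  let alg : Algebra F F₀ := (e.symm : F →+* F₀).toAlgebra
  have hst : IsScalarTower K F F₀ := IsScalarTower.of_algebraMap_eq fun x =>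
    (e.symm.commutes x).symm
  exact h.down

end

end Pool.Agent.Lib.MP_1a91b9_ntX.TG
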