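import Pool.Agent.Lib.MP_1a91b9_ntX.TG.Low
import Pool.Agent.Lib.MP_1a91b9_ntT.TG.Udesc

/-!
# Descent of the unit property in a cyclic extension of prime degree (curves `y² = x³ + D`)

Port of MP_1a91b9_ntT/TG/Udesc.lean.
-/

set_option autoImplicit false

namespace Pool.Agent.Lib.MP_1a91b9_ntX.TG

open NumberField IsDedekindDomain Pool.Agent.Lib.MP_1a91b9_nt Pool.Agent.Lib.MP_1a91b9_ntT
open Pool.Agent.Lib.MP_1a91b9_ntT.S4 (Over Lf hasProd_Lf hasProd_over indC indC_of indC_of_not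
  indC_one indC_mul norm_indC_le entire_eq le_iff_not_coprime differentiable_euler val_integral)
open Pool.Agent.Lib.MP_1a91b9_ntG (up Ram addI addI_place addI_one addI_mul ValueProp
  cyc_cases prod_one_sub_mul)
open Pool.Agent.Lib.MP_1a91b9_ntX.AN
open Pool.Agent.Lib.MP_1a91b9_ntT.TG (RayData chr chr_of chr_of_not chr_one chr_mul norm_chr_le
  chr_zero RayData.chr_ray RayData.unr RayData.split coprime_map_iff isIntegral_chr one_of_prod)

universe u

/-- **Descent of the unit property.** -/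
theorem unit_desc [DD] [HC] {F F' : Type u} [Field F] [NumberField F] [Field F'] [NumberField F']
    [Algebra F F'] [Algebra K F] [Algebra K F'] [IsScalarTower K F F'] [IsGalois F F'] {p : ℕ}
    [hp : Fact p.Prime] (hL : Module.finrank F F' = p) {m : Ideal (𝓞 F)} (hm0 : m ≠ 0)
    (hm1 : m ≠ 1) (hm3 : m ≤ Ideal.span {up HC.f F})
    {x : HeightOneSpectrum (𝓞 F) → ZMod p}
    (hx : RayData p F' m x) {ℓ : ℕ} (hℓ : ℓ.Prime) (hℓ3 : IsCoprime (HC.f : 𝓞 K) (ℓ : 𝓞 K))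
    (hmq : IsCoprime m (Ideal.span {(ℓ : 𝓞 F)})) {Ω : ℂ} (hV : ValueProp HC.f ℓ Ω F)
    (ha : ∀ v : HeightOneSpectrum (𝓞 F), m ≤ v.asIdeal → up HC.f F ∉ v.asIdeal →
      IsCoprime (psi F v.asIdeal - 1) (ℓ : 𝓞 K))
    (ha' : ∀ w : HeightOneSpectrum (𝓞 F'), m.map (algebraMap (𝓞 F) (𝓞 F')) ≤ w.asIdeal →
      up HC.f F' ∉ w.asIdeal → IsCoprime (psi F' w.asIdeal - 1) (ℓ : 𝓞 K))
    (hg : UnitProp ℓ Ω F') : UnitProp ℓ Ω F := by
  classical
  have hfl : Fact ℓ.Prime := ⟨hℓ⟩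
  obtain ⟨ι, hι, J, G, hG, hJ, hGW, hfam⟩ := exists_family hℓ.ne_zero hV m hm0 hm1 hm3 hmq
  obtain ⟨L', hLd', hL1', hne⟩ := hg
  obtain ⟨L, hLd, hL1⟩ := exists_cont hℓ.ne_zero hℓ3 hV
  have hBfin : {v : HeightOneSpectrum (𝓞 F) | m ≤ v.asIdeal}.Finite := by
    refine (Ideal.finite_factors hm0).subset fun v hv => ?_
    exact Ideal.dvd_iff_le.mpr hv
  obtain ⟨B, hBdef⟩ : ∃ B, B = hBfin.toFinset := ⟨_, rfl⟩
  have hB : ∀ v, v ∈ B ↔ m ≤ v.asIdeal := fun v => by
    rw [hBdef, Set.Finite.mem_toFinset]; rfl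
  obtain ⟨m', hm'⟩ : ∃ m', m' = m.map (algebraMap (𝓞 F) (𝓞 F')) := ⟨_, rfl⟩
  have hm0' : m' ≠ 0 := by
    rw [hm', Ne, Ideal.zero_eq_bot, Ideal.map_eq_bot_iff_of_injective
      (FaithfulSMul.algebraMap_injective _ _)]
    exact hm0
  have hBfin' : {w : HeightOneSpectrum (𝓞 F') | m' ≤ w.asIdeal}.Finite := by
    refine (Ideal.finite_factors hm0').subset fun v hv => ?_
    exact Ideal.dvd_iff_le.mpr hv
  obtain ⟨B', hBdef'⟩ : ∃ B', B' = hBfin'.toFinset := ⟨_, rfl⟩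
  have hB' : ∀ v, v ∈ B' ↔ m' ≤ v.asIdeal := fun v => by
    rw [hBdef', Set.Finite.mem_toFinset]; rfl
  let G1 : ZMod p → ℂ → ℂ := fun j s => ∑ i, chr x m j (J i) * G i s
  have hG1d : ∀ j, Differentiable ℂ (G1 j) := fun j =>
    Differentiable.fun_sum fun i _ => (differentiable_const _).mul (hG i)
  have hG1L : ∀ j, ∀ s : ℂ, 2 < s.re → Lf (fun I => psbC F I * chr x m j I) s = G1 j s := by
    intro j s hs
    exact hfam (chr x m j) (fun I hI => chr_of_not hI) (norm_chr_le x m j)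
      (hx.chr_ray hm0 hm1 j) s hs
  have id1 : G1 0 = fun s => L s * ∏ v ∈ B, (1 - psbC F v.asIdeal *
      (Ideal.absNorm v.asIdeal : ℂ) ^ (-s)) := by
    refine entire_eq (hG1d 0) (hLd.mul (differentiable_euler B _)) fun s hs => ?_
    have e : (fun I => psbC F I * chr x m 0 I) = fun I => psbC F I * indC m I :=
      funext fun I => by rw [chr_zero]
    rw [← hG1L 0 s hs, e, Lf_indC m B hB s hs, hL1 s hs]
  have id2 : (fun s => L' s * ∏ w ∈ B', (1 - psbC F' w.asIdeal *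
      (Ideal.absNorm w.asIdeal : ℂ) ^ (-s))) = fun s => ∏ j : ZMod p, G1 j s := by
    refine entire_eq (hLd'.mul (differentiable_euler B' _))
      (Differentiable.fun_finsetProd fun j _ => hG1d j) fun s hs => ?_
    have e1 : L' s = Lf (psbC F') s := hL1' s hs
    rw [e1, ← Lf_indC m' B' hB' s hs, hm', ray_Lf hL hm1 hx s hs]
    exact Finset.prod_congr rfl fun j _ => hG1L j s hs
  have e2 := congrFun id2 1
  have e1 := congrFun id1 1
  refine ⟨L, hLd, hL1, fun W hW => ?_⟩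
  -- the places above `m` are prime to `ℓ`
  have hvℓ : ∀ v : HeightOneSpectrum (𝓞 F), m ≤ v.asIdeal → (ℓ : 𝓞 F) ∉ v.asIdeal := by
    intro v hv h1
    obtain ⟨a, ha, b, hb, hab⟩ := Ideal.isCoprime_iff_exists.1 hmq
    apply v.isPrime.ne_top
    rw [Ideal.eq_top_iff_one, ← hab]
    exact v.asIdeal.add_mem (hv ha) ((Ideal.span_singleton_le_iff_mem _).2 h1 hb)
  have hwℓ : ∀ w : HeightOneSpectrum (𝓞 F'), m' ≤ w.asIdeal → (ℓ : 𝓞 F') ∉ w.asIdeal := by
    intro w hw h1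
    obtain ⟨a, ha, b, hb, hab⟩ := Ideal.isCoprime_iff_exists.1 hmq
    apply w.isPrime.ne_top
    rw [Ideal.eq_top_iff_one]
    have h2 := congrArg (algebraMap (𝓞 F) (𝓞 F')) hab
    rw [map_add, map_one] at h2
    rw [← h2]
    refine w.asIdeal.add_mem (hw ?_) ?_
    · rw [hm']
      exact Ideal.mem_map_of_mem _ ha
    · obtain ⟨c, rfl⟩ := Ideal.mem_span_singleton.1 hb
      rw [map_mul, map_natCast]
      exact Ideal.mul_mem_right _ _ h1
  have hE : W.valuation (∏ v ∈ B, (1 - psbC F v.asIdeal *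
      (Ideal.absNorm v.asIdeal : ℂ) ^ (-(1 : ℂ)))) = 1 := by
    rw [map_prod]
    refine Finset.prod_eq_one fun v hv => ?_
    have hv' := (hB v).1 hv
    by_cases h3 : up HC.f F ∈ v.asIdeal
    · rw [psbC_bad v h3, zero_mul, sub_zero, map_one]
    · exact val_euler W hW v h3 (hvℓ v hv') (ha v hv' h3)
  have hE' : W.valuation (∏ v ∈ B', (1 - psbC F' v.asIdeal *
      (Ideal.absNorm v.asIdeal : ℂ) ^ (-(1 : ℂ)))) = 1 := by
    rw [map_prod]
    refine Finset.prod_eq_one fun v hv => ?_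
    have hv' := (hB' v).1 hv
    by_cases h3 : up HC.f F' ∈ v.asIdeal
    · rw [psbC_bad v h3, zero_mul, sub_zero, map_one]
    · exact val_euler W hW v h3 (hwℓ v hv') (ha' v (by rw [← hm']; exact hv') h3)
  have hj : ∀ j : ZMod p, W.valuation (G1 j 1 / Ω ^ (Module.finrank K F)) ≤ 1 := by
    intro j
    have e : G1 j 1 / Ω ^ (Module.finrank K F) =
        ∑ i, chr x m j (J i) * (G i 1 / Ω ^ (Module.finrank K F)) := by
      change (∑ i, chr x m j (J i) * G i 1) / Ω ^ (Module.finrank K F) = _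
      rw [Finset.sum_div]
      exact Finset.sum_congr rfl fun i _ => by rw [mul_div_assoc]
    rw [e]
    refine Valuation.map_sum_le _ fun i _ => ?_
    rw [map_mul]
    exact mul_le_one' (val_integral W (isIntegral_chr x m j _)) (hGW i W hW)
  have hprod : ∏ j : ZMod p, W.valuation (G1 j 1 / Ω ^ (Module.finrank K F)) = 1 := by
    have h1 : ∏ j : ZMod p, (G1 j 1 / Ω ^ (Module.finrank K F)) =
        (L' 1 / Ω ^ (Module.finrank K F')) * ∏ w ∈ B', (1 - psbC F' w.asIdeal *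
          (Ideal.absNorm w.asIdeal : ℂ) ^ (-(1 : ℂ))) := by
      rw [Finset.prod_div_distrib, ← e2, Finset.prod_const, Finset.card_univ, ZMod.card,
        ← pow_mul, ← Module.finrank_mul_finrank K F F', hL, div_mul_eq_mul_div]
    rw [← map_prod, h1, map_mul, hE', mul_one]
    exact hne W hW
  have h0 := one_of_prod _ hj hprod 0
  rw [e1] at h0
  change W.valuation (L 1 * (∏ v ∈ B, (1 - psbC F v.asIdeal *
      (Ideal.absNorm v.asIdeal : ℂ) ^ (-(1 : ℂ)))) / Ω ^ (Module.finrank K F)) = 1 at h0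
  rw [← div_mul_eq_mul_div, map_mul, hE, mul_one] at h0
  exact h0

end Pool.Agent.Lib.MP_1a91b9_ntX.TG
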