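import Pool.Agent.Lib.MP_1a91b9_ntX.TG.Main
import Pool.Agent.Lib.MP_1a91b9_ntT.TG.Top

/-!
# The explicit set of exceptional primes for `D = 16` and `F₀ = K`
-/

set_option autoImplicit false

namespace Pool.Agent.Lib.MP_1a91b9_ntX.TG

open NumberField IsDedekindDomain Module WeierstrassCurve Pool.Agent.Lib.MP_1a91b9_ntT
open Pool.Agent.Lib.MP_1a91b9_nt
open Pool.Agent.Lib.MP_1a91b9_ntT.S5 (below mem_below)
open Pool.Agent.Lib.MP_1a91b9_ntT.TG (card_dvd)
open Pool.Agent.Lib.MP_1a91b9_ntX.LF (crv crm exists_crm card_vc)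

section
variable {F₀ L : Type} [Field F₀] [NumberField F₀] [Algebra K F₀] [Field L] [NumberField L]
  [Algebra F₀ L]

/-- The condition in terms of the discriminant. -/
theorem ramP_of_ramX (hb : finrank K F₀ = 1) {ℓ : ℕ} (hℓ : ℓ.Prime) (h3 : ℓ ≠ 3)
    (h : RamX ℓ 16 F₀ L) : PT.RamP ℓ L := by
  intro p hp hp3 hd
  have hbK : Function.Bijective (algebraMap K F₀) := by
    exact Algebra.finrank_eq_one_iff_bijective_algebraMap.1 hb
  have hpZ := Nat.prime_iff_prime_int.1 hp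
  by_contra hcon
  refine (not_dvd_discr_iff_forall_mem L (𝓞 L) hpZ).2 (fun P hP hpP => ?_) hd
  have hpP' : (p : 𝓞 L) ∈ P := by exact_mod_cast hpP
  have hbot : P ≠ ⊥ := by
    rintro rfl
    exact (Nat.cast_ne_zero.2 hp.ne_zero : (p : 𝓞 L) ≠ 0) ((Submodule.mem_bot _).1 hpP')
  obtain ⟨w, hw⟩ : ∃ w : HeightOneSpectrum (𝓞 L), w.asIdeal = P := ⟨⟨P, hP, hbot⟩, rfl⟩
  subst hw
  have hvp : (below F₀ w).asIdeal.IsPrime := (below F₀ w).isPrime
  have hlo : w.asIdeal.LiesOver (below F₀ w).asIdeal := ⟨rfl⟩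
  have hpv : (p : 𝓞 F₀) ∈ (below F₀ w).asIdeal := by
    rw [mem_below, map_natCast]
    exact hpP'
  have hnot : ∀ q : ℕ, q.Prime → p ≠ q → (q : 𝓞 F₀) ∉ (below F₀ w).asIdeal := by
    intro q hq hpq h3
    have hc : Nat.Coprime p q := (Nat.coprime_primes hp hq).2 hpq
    obtain ⟨a, b, hab⟩ := Nat.isCoprime_iff_coprime.2 hc
    apply hvp.ne_top
    rw [Ideal.eq_top_iff_one]
    have h2 : (1 : 𝓞 F₀) = (a : 𝓞 F₀) * (p : 𝓞 F₀) + (b : 𝓞 F₀) * (q : 𝓞 F₀) := by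
      have h4 := congrArg (Int.cast (R := 𝓞 F₀)) hab
      push_cast at h4
      exact h4.symm
    rw [h2]
    exact Ideal.add_mem _ (Ideal.mul_mem_left _ _ hpv) (Ideal.mul_mem_left _ _ h3)
  have h3v : (3 : 𝓞 F₀) ∉ (below F₀ w).asIdeal := by
    have h4 := hnot 3 Nat.prime_three hp3
    rwa [Nat.cast_ofNat] at h4
  -- `F₀` is unramified over the rational numbers outside `3`
  have h1 : Algebra.IsUnramifiedAt ℤ (below F₀ w).asIdeal := by
    have hadj : Algebra.adjoin ℚ {algebraMap K F₀ om} = ⊤ := by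
      have htop : Algebra.adjoin ℚ {om} = ⊤ :=
        IsCyclotomicExtension.adjoin_primitive_root_eq_top om_spec
      have h5 := congrArg (Subalgebra.map (IsScalarTower.toAlgHom ℚ K F₀)) htop
      rw [AlgHom.map_adjoin, Set.image_singleton, Algebra.map_top] at h5
      rw [show (algebraMap K F₀ om : F₀) = IsScalarTower.toAlgHom ℚ K F₀ om from rfl, h5]
      exact AlgHom.range_eq_top _ |>.2 hbK.2
    obtain ⟨v, hv⟩ : ∃ v, v = below F₀ w := ⟨_, rfl⟩
    rw [← hv] at hvp hpv h3v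
    have i1 : (below ℚ v).asIdeal.IsPrime := (below ℚ v).isPrime
    have i2 : v.asIdeal.LiesOver (below ℚ v).asIdeal := ⟨rfl⟩
    have h6 : (p : 𝓞 ℚ) ∈ (below ℚ v).asIdeal := by
      rw [mem_below, map_natCast]
      exact hpv
    have h7 : Algebra.IsUnramifiedAt ℤ (below ℚ v).asIdeal :=
      (not_dvd_discr_iff_forall_mem ℚ (𝓞 ℚ) hpZ).1 (by
        rw [discr_rat]
        exact hpZ.not_dvd_one) _ i1 (by exact_mod_cast h6)
    have h8 : Algebra.IsUnramifiedAt (𝓞 ℚ) v.asIdeal := PT.unr_om hadj v h3v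
    have h9 : Algebra.IsUnramifiedAt ℤ v.asIdeal :=
      Algebra.IsUnramifiedAt.comp (below ℚ v).asIdeal v.asIdeal
    subst hv
    exact h9
  have h2 : Algebra.IsUnramifiedAt (𝓞 F₀) w.asIdeal := by
    rw [← Ideal.ramificationIdx_eq_one_iff]
    by_contra hne
    obtain ⟨hl, hc⟩ := h (below F₀ w) w ((MP_1a91b9_ntG.le_sq_iff rfl).mpr hne)
    have hlp : p ≠ ℓ := fun e => hl (by rw [← e]; exact hpv)
    apply hcon
    refine ⟨hlp, fun hdv => ?_⟩
    by_cases hp2 : p = 2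
    · subst hp2
      have e := S4.card_fermatCubic_of_two (k := ZMod 2) (by decide) (by
        rw [Nat.card_zmod]
        decide)
      rw [Nat.card_zmod] at e
      have hdv' : ℓ ∣ 3 := by
        have e' : Nat.card (S4.fermatCubic (ZMod 2)).toAffine.Point = 3 := e
        rw [← e']
        exact hdv
      exact h3 ((Nat.prime_dvd_prime_iff_eq hℓ Nat.prime_three).1 hdv')
    · have h2v : (2 : 𝓞 F₀) ∉ (below F₀ w).asIdeal := by
        have h4 := hnot 2 Nat.prime_two hp2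
        rwa [Nat.cast_ofNat] at h4
      have h6v : ((6 * 16 : ℤ) : 𝓞 F₀) ∉ (below F₀ w).asIdeal := by
        have e6 : ((6 * 16 : ℤ) : 𝓞 F₀) = 2 ^ 5 * 3 := by push_cast; norm_num
        rw [e6]
        intro h4
        rcases hvp.mem_or_mem h4 with h5 | h5
        · exact h2v (hvp.mem_of_pow_mem 5 h5)
        · exact h3v h5
      have hc' := hc h6v
      have hm : (below F₀ w).asIdeal.IsMaximal := (below F₀ w).isMaximal
      letI : Field (𝓞 F₀ ⧸ (below F₀ w).asIdeal) := Ideal.Quotient.field _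
      have h20 : (2 : 𝓞 F₀ ⧸ (below F₀ w).asIdeal) ≠ 0 := by
        intro h0
        apply h2v
        rw [← Ideal.Quotient.eq_zero_iff_mem, map_ofNat]
        exact h0
      obtain ⟨C, hC⟩ := exists_crm h20 0
      have e1 := card_vc _ _ C hC
      have e2 : (16 * (4 * 0 + 1) : 𝓞 F₀ ⧸ (below F₀ w).asIdeal) =
          ((16 : ℤ) : 𝓞 F₀ ⧸ (below F₀ w).asIdeal) := by
        push_cast
        ring
      rw [e2] at e1
      apply hc'
      have e3 : Nat.card (⟨0, 0, 0, 0, ((16 : ℤ) : 𝓞 F₀ ⧸ (below F₀ w).asIdeal)⟩ :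
          WeierstrassCurve (𝓞 F₀ ⧸ (below F₀ w).asIdeal)).toAffine.Point =
          Nat.card (⟨0, 0, 1, 0, 0⟩ :
          WeierstrassCurve (𝓞 F₀ ⧸ (below F₀ w).asIdeal)).toAffine.Point := e1.symm
      rw [e3]
      refine hdv.trans ?_
      have i2 : Finite (𝓞 F₀ ⧸ (below F₀ w).asIdeal) :=
        Ideal.finiteQuotientOfFreeOfNeBot _ (below F₀ w).ne_bot
      have i3 : CharP (𝓞 F₀ ⧸ (below F₀ w).asIdeal) p := by
        rw [CharP.charP_iff_prime_eq_zero hp]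
        have h5 := Ideal.Quotient.eq_zero_iff_mem.2 hpv
        rwa [map_natCast] at h5
      exact card_dvd hp
  exact Algebra.IsUnramifiedAt.comp (below F₀ w).asIdeal w.asIdeal

end

/-- The case `D = 16` and `F₀ = K`. -/
theorem towX_K {F₀ : Type} [Field F₀] [NumberField F₀] [Algebra K F₀] (hb : finrank K F₀ = 1)
    {ℓ : ℕ} (hℓ : ℓ.Prime) (h3 : ℓ ≠ 3) (d : ℕ) : TowX ℓ 16 d F₀ := by
  intro n N L M _ _ _ _ _ _ _ _ _ _ _ _ hM hL W C hC _
  have hbK : Function.Bijective (algebraMap K F₀) :=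
    Algebra.finrank_eq_one_iff_bijective_algebraMap.1 hb
  let aKM : Algebra K M := ((algebraMap F₀ M).comp (algebraMap K F₀)).toAlgebra
  have t2 : IsScalarTower K F₀ M := IsScalarTower.of_algebraMap_eq fun x => rfl
  have hM' : finrank K M = ℓ ^ n := by
    rw [← Module.finrank_mul_finrank K F₀ M, hb, one_mul, hM]
  have hG : IsGalois K M := by
    refine IsGalois.of_equiv_equiv (F := F₀) (E := M) (M := K) (N := M)
      (f := (RingEquiv.ofBijective (algebraMap K F₀) hbK).symm) (g := RingEquiv.refl M) ?_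
    ext x
    obtain ⟨y, rfl⟩ := hbK.2 x
    change algebraMap K M ((RingEquiv.ofBijective (algebraMap K F₀) hbK).symm
      (RingEquiv.ofBijective (algebraMap K F₀) hbK y)) = algebraMap F₀ M (algebraMap K F₀ y)
    rw [RingEquiv.symm_apply_apply]
    rfl
  have hLP := ramP_of_ramX hb hℓ h3 hL
  obtain ⟨C₁, hC₁⟩ := exists_crm (k := L) (by norm_num) 0
  have e2 : (16 * (4 * 0 + 1) : L) = ((16 : ℤ) : L) := by
    push_cast
    ring
  rw [e2] at hC₁
  have hC' : (C₁ * C) • W.baseChange L = ⟨0, 0, 1, 0, 0⟩ := by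
    rw [mul_smul, hC]
    exact hC₁
  exact ⟨PT.main_K hℓ h3 N L M n hM' hLP W _ hC',
    fun hF => PL.main h3 N L M n hM' hLP W _ hC'⟩

/-- The case `D = 16` and `F₀ = K` for any field `K` generated by a cube root of unity. -/
theorem towX_cyc {K₀ F₀ : Type} [Field K₀] [NumberField K₀] [IsCyclotomicExtension {3} ℚ K₀]
    [Field F₀] [NumberField F₀] [Algebra K₀ F₀] (hb : finrank K₀ F₀ = 1)
    {ℓ : ℕ} (hℓ : ℓ.Prime) (h3 : ℓ ≠ 3) (d : ℕ) : TowX ℓ 16 d F₀ := by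
  have hζ := IsCyclotomicExtension.zeta_spec 3 ℚ K₀
  obtain ⟨w, hw⟩ : ∃ w : K₀, w = IsCyclotomicExtension.zeta 3 ℚ K₀ := ⟨_, rfl⟩
  have hw2 : w ^ 2 + w + 1 = 0 := by
    rw [hw]
    have h1 := hζ.isRoot_cyclotomic (by norm_num)
    rw [Polynomial.cyclotomic_three] at h1
    simpa [Polynomial.IsRoot] using h1
  have hK : finrank ℚ K₀ = 2 := by
    rw [IsCyclotomicExtension.finrank (n := 3) K₀ (Polynomial.cyclotomic.irreducible_rat
      (by norm_num))]
    rfl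
  obtain ⟨e, he⟩ := MP_1a91b9_ntT3.S8.exists_equiv hK hw2
  let aF : Algebra K F₀ := ((algebraMap K₀ F₀).comp e.toRingHom).toAlgebra
  have hfin : finrank K F₀ = 1 := by
    have h1 := finrank_mul_finrank ℚ K F₀
    have h2 := finrank_mul_finrank ℚ K₀ F₀
    rw [S3.finrank_K] at h1
    rw [hK, hb] at h2
    omega
  exact towX_K hfin hℓ h3 d

/-- **Theorem G2** with the explicit set of exceptional primes for `D = 16` and `F₀ = K`. -/
theorem thmU (K₀ N₀ F₀ L₀ : Type) [Field K₀] [NumberField K₀]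
    [IsCyclotomicExtension {3} ℚ K₀] [Field N₀] [NumberField N₀] [Field F₀] [NumberField F₀]
    [Field L₀] [NumberField L₀] [DecidableEq L₀] [Algebra K₀ F₀] [Algebra N₀ F₀]
    [Algebra K₀ L₀] [Algebra F₀ L₀] [IsScalarTower K₀ F₀ L₀] (D : ℤ) (hD : D ≠ 0)
    (hN : IntermediateField.adjoin N₀ (Set.range (algebraMap K₀ F₀)) = ⊤) (x y : L₀)
    (hxy : (⟨0, 0, 0, 0, ((D : ℤ) : L₀)⟩ : WeierstrassCurve L₀).toAffine.Nonsingular x y)
    (ht : IsOfFinAddOrder (Affine.Point.some x y hxy))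
    (hL₀ : IntermediateField.adjoin K₀ {x, y} = ⊤)
    (hr : ¬ (finrank K₀ F₀).Coprime 6 → RamSix D K₀ F₀)
    (hg : ¬ (D = 16 ∧ finrank K₀ F₀ = 1) → ∃ g : ℂ → ℂ, Differentiable ℂ g ∧
      (∀ s : ℂ, 3 / 2 < s.re →
        g s = (⟨0, 0, 0, 0, ((D : ℤ) : N₀)⟩ : WeierstrassCurve N₀).LSeries s) ∧ g 1 ≠ 0) :
    ∃ S : Finset ℕ, (D = 16 ∧ finrank K₀ F₀ = 1 → S = {3}) ∧
      ∀ ℓ : ℕ, ℓ.Prime → ℓ ∉ S → TowX ℓ D (finrank K₀ F₀) F₀ := by
  by_cases h : D = 16 ∧ finrank K₀ F₀ = 1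
  · obtain ⟨h16, h1⟩ := h
    subst h16
    refine ⟨{3}, fun _ => rfl, fun ℓ hℓ hS => towX_cyc h1 hℓ ?_ _⟩
    rintro rfl
    exact hS (Finset.mem_singleton_self 3)
  · obtain ⟨S, hS⟩ := thmX K₀ N₀ F₀ L₀ D hD hN x y hxy ht hL₀ hr (hg h)
    exact ⟨S, fun h' => absurd h' h, hS⟩

end Pool.Agent.Lib.MP_1a91b9_ntX.TG
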